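import Mathlib

/-! Polynomials of degree at most `d` at `d + 3` increasing points. -/

set_option autoImplicit false

namespace Pool.Agent.H15CY

open Polynomial

/-- alternating triples -/
def Alt {n : ℕ} (i j k : Fin n) : Prop := i < j ∧ j < k ∧ Odd ((i : ℕ) + j) ∧ Odd ((j : ℕ) + k)

/-- the sign of the product of the differences -/
lemma prod_sign {n : ℕ} (t : Fin n → ℝ) (ht : StrictMono t) (i : Fin n) (A : Finset (Fin n))
    (hi : i ∉ A) : 0 < (-1 : ℝ) ^ (A.filter (fun l => i < l)).card * ∏ l ∈ A, (t i - t l) := by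
  have h1 : (-1 : ℝ) ^ (A.filter (fun l => i < l)).card = ∏ l ∈ A, (if i < l then (-1 : ℝ) else 1) := by
    rw [Finset.prod_ite, Finset.prod_const, Finset.prod_const_one, mul_one]
  rw [h1, ← Finset.prod_mul_distrib]
  apply Finset.prod_pos
  intro l hl
  have hne : l ≠ i := fun h => hi (h ▸ hl)
  split_ifs with h
  · have := ht h
    linarith
  · have h2 : l < i := lt_of_le_of_ne (not_lt.1 h) hne
    have := ht h2
    linarith

lemma pos_alt {d : ℕ} (hd : Even d) (t : Fin (d + 3) → ℝ) (ht : StrictMono t) (p : ℝ[X])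
    (hdeg : p.natDegree ≤ d) (hp : ∀ l, 0 ≤ p.eval (t l)) (hne : ∃ l, 0 < p.eval (t l)) :
    ∃ i j k, Alt i j k ∧ 0 < p.eval (t i) ∧ 0 < p.eval (t j) ∧ 0 < p.eval (t k) := by
  classical
  by_contra hcon
  push Not at hcon
  -- the vanishing sum
  have hsum : ∀ q : ℝ[X], q.natDegree ≤ 1 → ∑ l : Fin (d + 3),
      (p.eval (t l) * q.eval (t l)) / ∏ j ∈ Finset.univ.erase l, (t l - t j) = 0 := by
    intro q hq
    have h1 : (p * q).natDegree ≤ d + 1 := (natDegree_mul_le).trans (by omega)
    have h2 : (p * q).degree < (Finset.univ : Finset (Fin (d + 3))).card := by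
      rw [Finset.card_univ, Fintype.card_fin]
      exact lt_of_le_of_lt (degree_le_natDegree) (by exact_mod_cast (by omega : (p * q).natDegree < d + 3))
    have h3 := Lagrange.coeff_eq_sum (s := Finset.univ) (v := t) ht.injective.injOn h2
    rw [Finset.card_univ, Fintype.card_fin, coeff_eq_zero_of_natDegree_lt (by omega)] at h3
    rw [h3]
    apply Finset.sum_congr rfl
    intro l _
    rw [eval_mul]
  -- the sign of the weights
  have hw : ∀ l : Fin (d + 3), 0 < (-1 : ℝ) ^ (l : ℕ) * ∏ j ∈ Finset.univ.erase l, (t l - t j) := by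
    intro l
    have h1 := prod_sign t ht l (Finset.univ.erase l) (Finset.notMem_erase _ _)
    have h2 : ((Finset.univ.erase l).filter (fun j => l < j)).card = d + 2 - l := by
      have : (Finset.univ.erase l).filter (fun j => l < j) = Finset.Ioi l := by
        ext j
        simp only [Finset.mem_filter, Finset.mem_erase, Finset.mem_univ, and_true, Finset.mem_Ioi]
        exact ⟨fun h => h.2, fun h => ⟨h.ne', h⟩⟩
      rw [this, Fin.card_Ioi]
      omega
    rw [h2] at h1
    have h3 : (-1 : ℝ) ^ (d + 2 - (l : ℕ)) = (-1 : ℝ) ^ (l : ℕ) := by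
      have hl := l.2
      have h4 : (-1 : ℝ) ^ (d + 2 - (l : ℕ)) * (-1 : ℝ) ^ (l : ℕ) = 1 := by
        rw [← pow_add, Nat.sub_add_cancel (by omega)]
        exact (hd.add (by decide : Even 2)).neg_one_pow
      have h5 : (-1 : ℝ) ^ (l : ℕ) * (-1 : ℝ) ^ (l : ℕ) = 1 := by
        rw [← pow_add]
        exact (Even.add_self _).neg_one_pow
      have h6 : (-1 : ℝ) ^ (l : ℕ) ≠ 0 := pow_ne_zero _ (by norm_num)
      exact mul_right_cancel₀ h6 (h4.trans h5.symm)
    rw [h3] at h1
    exact h1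
  have hterm : ∀ (q : ℝ[X]) (l : Fin (d + 3)),
      (p.eval (t l) * q.eval (t l)) / ∏ j ∈ Finset.univ.erase l, (t l - t j) =
      (-1 : ℝ) ^ (l : ℕ) * (p.eval (t l) * q.eval (t l)) /
        ((-1 : ℝ) ^ (l : ℕ) * ∏ j ∈ Finset.univ.erase l, (t l - t j)) := by
    intro q l
    rw [mul_div_mul_left _ _ (pow_ne_zero _ (by norm_num))]
  let S : Finset (Fin (d + 3)) := Finset.univ.filter (fun l => 0 < p.eval (t l))
  have hS : ∀ l, l ∈ S ↔ 0 < p.eval (t l) := fun l => by simp [S]
  have hSne : S.Nonempty := by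
    obtain ⟨l, hl⟩ := hne
    exact ⟨l, (hS l).2 hl⟩
  obtain ⟨i₀, hi₀, hmin⟩ := S.exists_min_image id hSne
  have hp0 : ∀ l, l ∉ S → p.eval (t l) = 0 := fun l hl =>
    le_antisymm (not_lt.1 fun h => hl ((hS l).2 h)) (hp l)
  have sq1 : ∀ l : ℕ, (-1 : ℝ) ^ l * (-1 : ℝ) ^ l = 1 := fun l => by
    rw [← pow_add]; exact (Even.add_self _).neg_one_pow
  have same : ∀ a b : ℕ, ¬ Odd (a + b) → (-1 : ℝ) ^ a * (-1 : ℝ) ^ b = 1 := fun a b h => by
    rw [← pow_add]; exact (Nat.not_odd_iff_even.1 h).neg_one_pow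
  have diff : ∀ a b : ℕ, Odd (a + b) → (-1 : ℝ) ^ a * (-1 : ℝ) ^ b = -1 := fun a b h => by
    rw [← pow_add]; exact h.neg_one_pow
  by_cases hj : ∃ j ∈ S, Odd ((i₀ : ℕ) + j)
  · let S2 : Finset (Fin (d + 3)) := S.filter (fun l => Odd ((i₀ : ℕ) + l))
    have hS2 : ∀ l, l ∈ S2 ↔ l ∈ S ∧ Odd ((i₀ : ℕ) + l) := fun l => by simp [S2]
    have hS2ne : S2.Nonempty := by
      obtain ⟨l, hl, h⟩ := hj
      exact ⟨l, (hS2 l).2 ⟨hl, h⟩⟩
    obtain ⟨j₀, hj₀, hmin2⟩ := S2.exists_min_image id hS2ne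
    obtain ⟨hj₀S, hj₀o⟩ := (hS2 j₀).1 hj₀
    have hij : i₀ < j₀ := by
      refine lt_of_le_of_ne (hmin j₀ hj₀S) ?_
      intro h
      rw [h] at hj₀o
      exact Nat.not_odd_iff_even.2 (Even.add_self _) hj₀o
    have h1 := hsum (X - C (t j₀)) (by compute_degree)
    have h2 : 0 < ∑ l : Fin (d + 3), -((-1 : ℝ) ^ (i₀ : ℕ) *
        ((p.eval (t l) * (X - C (t j₀)).eval (t l)) / ∏ j ∈ Finset.univ.erase l, (t l - t j))) := by
      have hsgn : ∀ l : Fin (d + 3), l ∈ S → l ≠ j₀ → 0 < -((-1 : ℝ) ^ (i₀ : ℕ) *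
        ((p.eval (t l) * (X - C (t j₀)).eval (t l)) /
          ∏ j ∈ Finset.univ.erase l, (t l - t j))) := by
        intro l hl hlj
        rw [hterm, eval_sub, eval_X, eval_C]
        have hpl := (hS l).1 hl
        rcases lt_or_gt_of_ne hlj with h | h
        · have ho : ¬ Odd ((i₀ : ℕ) + l) := fun ho =>
            absurd (hmin2 l ((hS2 l).2 ⟨hl, ho⟩)) (not_le.2 h)
          have e1 : -((-1 : ℝ) ^ (i₀ : ℕ) * ((-1 : ℝ) ^ (l : ℕ) * (p.eval (t l) * (t l - t j₀)) /
              ((-1 : ℝ) ^ (l : ℕ) * ∏ j ∈ Finset.univ.erase l, (t l - t j)))) =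
              (p.eval (t l) * (t j₀ - t l)) /
                ((-1 : ℝ) ^ (l : ℕ) * ∏ j ∈ Finset.univ.erase l, (t l - t j)) := by
            have := same i₀ l ho
            rw [← mul_div_assoc, ← neg_div, ← mul_assoc, this]
            ring
          rw [e1]
          exact div_pos (mul_pos hpl (by linarith [ht h])) (hw l)
        · have ho : Odd ((i₀ : ℕ) + l) := by
            by_contra ho
            have hjl : Odd ((j₀ : ℕ) + l) := by
              rw [Nat.odd_iff] at hj₀o ho ⊢
              omega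
            exact absurd (hcon i₀ j₀ l ⟨hij, h, hj₀o, hjl⟩ ((hS _).1 hi₀) ((hS _).1 hj₀S))
              (not_le.2 hpl)
          have e1 : -((-1 : ℝ) ^ (i₀ : ℕ) * ((-1 : ℝ) ^ (l : ℕ) * (p.eval (t l) * (t l - t j₀)) /
              ((-1 : ℝ) ^ (l : ℕ) * ∏ j ∈ Finset.univ.erase l, (t l - t j)))) =
              (p.eval (t l) * (t l - t j₀)) /
                ((-1 : ℝ) ^ (l : ℕ) * ∏ j ∈ Finset.univ.erase l, (t l - t j)) := by
            have := diff i₀ l ho
            rw [← mul_div_assoc, ← neg_div, ← mul_assoc, this]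
            ring
          rw [e1]
          exact div_pos (mul_pos hpl (by linarith [ht h])) (hw l)
      apply Finset.sum_pos'
      · intro l _
        by_cases hl : l ∈ S
        · by_cases hlj : l = j₀
          · rw [hlj]; simp
          · exact (hsgn l hl hlj).le
        · rw [hp0 l hl]; simp
      · exact ⟨i₀, Finset.mem_univ _, hsgn i₀ hi₀ hij.ne⟩
    rw [Finset.sum_neg_distrib, ← Finset.mul_sum, h1] at h2
    simp at h2
  · push Not at hj
    have h1 := hsum 1 (by simp)
    have h2 : 0 < ∑ l : Fin (d + 3), ((-1 : ℝ) ^ (i₀ : ℕ) *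
        ((p.eval (t l) * (1 : ℝ[X]).eval (t l)) / ∏ j ∈ Finset.univ.erase l, (t l - t j))) := by
      have hsgn : ∀ l : Fin (d + 3), l ∈ S → 0 < ((-1 : ℝ) ^ (i₀ : ℕ) *
        ((p.eval (t l) * (1 : ℝ[X]).eval (t l)) /
          ∏ j ∈ Finset.univ.erase l, (t l - t j))) := by
        intro l hl
        rw [hterm, eval_one]
        have hpl := (hS l).1 hl
        have e1 : ((-1 : ℝ) ^ (i₀ : ℕ) * ((-1 : ℝ) ^ (l : ℕ) * (p.eval (t l) * 1) /
              ((-1 : ℝ) ^ (l : ℕ) * ∏ j ∈ Finset.univ.erase l, (t l - t j)))) =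
              (p.eval (t l)) /
                ((-1 : ℝ) ^ (l : ℕ) * ∏ j ∈ Finset.univ.erase l, (t l - t j)) := by
            have := same i₀ l (hj l hl)
            rw [← mul_div_assoc, ← mul_assoc, this]
            ring
        rw [e1]
        exact div_pos hpl (hw l)
      apply Finset.sum_pos'
      · intro l _
        by_cases hl : l ∈ S
        · exact (hsgn l hl).le
        · rw [hp0 l hl]; simp
      · exact ⟨i₀, Finset.mem_univ _, hsgn i₀ hi₀⟩
    rw [← Finset.mul_sum, h1] at h2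
    simp at h2

/-- the supporting polynomial of the facet complementary to an alternating triple -/
lemma alt_poly {d : ℕ} (hd : Even d) (t : Fin (d + 3) → ℝ) (ht : StrictMono t)
    (i j k : Fin (d + 3)) (h : Alt i j k) :
    ∃ p : ℝ[X], p.natDegree ≤ d ∧ (∀ l, l ≠ i → l ≠ j → l ≠ k → p.eval (t l) = 0) ∧
      0 < p.eval (t i) ∧ 0 < p.eval (t j) ∧ 0 < p.eval (t k) := by
  classical
  obtain ⟨hij, hjk, o1, o2⟩ := h
  have hik := hij.trans hjk
  let A : Finset (Fin (d + 3)) := Finset.univ \ {i, j, k}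
  have hA : ∀ l, l ∈ A ↔ l ≠ i ∧ l ≠ j ∧ l ≠ k := fun l => by simp [A]
  have hc3 : ({i, j, k} : Finset (Fin (d + 3))).card = 3 := by
    rw [Finset.card_eq_three]
    exact ⟨i, j, k, hij.ne, hik.ne, hjk.ne, rfl⟩
  have hAc : A.card = d := by
    rw [Finset.card_sdiff_of_subset (Finset.subset_univ _), Finset.card_univ, Fintype.card_fin, hc3]
    omega
  have hcard : ∀ l : Fin (d + 3), (A.filter (fun m => l < m)).card =
      d + 2 - l - (({i, j, k} : Finset (Fin (d + 3))).filter (fun m => l < m)).card := by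
    intro l
    have e1 : A.filter (fun m => l < m) = Finset.Ioi l \
        (({i, j, k} : Finset (Fin (d + 3))).filter (fun m => l < m)) := by
      ext m
      simp only [A, Finset.mem_filter, Finset.mem_sdiff, Finset.mem_univ, true_and, Finset.mem_Ioi]
      tauto
    rw [e1, Finset.card_sdiff_of_subset, Fin.card_Ioi]
    · congr 1
    · intro m hm
      rw [Finset.mem_filter] at hm
      exact Finset.mem_Ioi.2 hm.2
  have ci : (A.filter (fun m => i < m)).card = d - i := by
    rw [hcard]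
    have : ({i, j, k} : Finset (Fin (d + 3))).filter (fun m => i < m) = {j, k} := by
      ext m
      simp only [Finset.mem_filter, Finset.mem_insert, Finset.mem_singleton]
      constructor
      · rintro ⟨h | h | h, h2⟩
        · rw [h] at h2; exact absurd h2 (lt_irrefl _)
        · exact Or.inl h
        · exact Or.inr h
      · rintro (h | h)
        · rw [h]; exact ⟨Or.inr (Or.inl rfl), hij⟩
        · rw [h]; exact ⟨Or.inr (Or.inr rfl), hik⟩
    rw [this, Finset.card_pair hjk.ne]
    omega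
  have cj : (A.filter (fun m => j < m)).card = d + 1 - j := by
    rw [hcard]
    have : ({i, j, k} : Finset (Fin (d + 3))).filter (fun m => j < m) = {k} := by
      ext m
      simp only [Finset.mem_filter, Finset.mem_insert, Finset.mem_singleton]
      constructor
      · rintro ⟨h | h | h, h2⟩
        · rw [h] at h2; exact absurd h2 (not_lt.2 hij.le)
        · rw [h] at h2; exact absurd h2 (lt_irrefl _)
        · exact h
      · intro h
        rw [h]; exact ⟨Or.inr (Or.inr rfl), hjk⟩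
    rw [this, Finset.card_singleton]
    omega
  have ck : (A.filter (fun m => k < m)).card = d + 2 - k := by
    rw [hcard]
    have : ({i, j, k} : Finset (Fin (d + 3))).filter (fun m => k < m) = ∅ := by
      ext m
      simp only [Finset.mem_filter, Finset.mem_insert, Finset.mem_singleton]
      constructor
      · rintro ⟨h | h | h, h2⟩
        · rw [h] at h2; exact absurd h2 (not_lt.2 hik.le)
        · rw [h] at h2; exact absurd h2 (not_lt.2 hjk.le)
        · rw [h] at h2; exact absurd h2 (lt_irrefl _)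
      · intro h
        simp at h
    rw [this, Finset.card_empty]
    omega
  have hi := prod_sign t ht i A (by rw [hA]; tauto)
  have hj := prod_sign t ht j A (by rw [hA]; tauto)
  have hk := prod_sign t ht k A (by rw [hA]; tauto)
  rw [ci] at hi
  rw [cj] at hj
  rw [ck] at hk
  have lk := k.2
  have e1 : (-1 : ℝ) ^ (d + 1 - (j : ℕ)) = (-1 : ℝ) ^ (d - (i : ℕ)) := by
    have h1 : (i : ℕ) < j := hij
    have h2 : (j : ℕ) < k := hjk
    rw [Nat.odd_iff] at o1 o2
    rcases Nat.even_or_odd (d - (i : ℕ)) with h | h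
    · have h' : Even (d + 1 - (j : ℕ)) := by rw [Nat.even_iff] at *; omega
      rw [h.neg_one_pow, h'.neg_one_pow]
    · have h' : Odd (d + 1 - (j : ℕ)) := by rw [Nat.odd_iff] at *; omega
      rw [h.neg_one_pow, h'.neg_one_pow]
  have e2 : (-1 : ℝ) ^ (d + 2 - (k : ℕ)) = (-1 : ℝ) ^ (d - (i : ℕ)) := by
    have h1 : (i : ℕ) < j := hij
    have h2 : (j : ℕ) < k := hjk
    rw [Nat.odd_iff] at o1 o2
    rcases Nat.even_or_odd (d - (i : ℕ)) with h | h
    · have h' : Even (d + 2 - (k : ℕ)) := by rw [Nat.even_iff] at *; omega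
      rw [h.neg_one_pow, h'.neg_one_pow]
    · have h' : Odd (d + 2 - (k : ℕ)) := by rw [Nat.odd_iff] at *; omega
      rw [h.neg_one_pow, h'.neg_one_pow]
  rw [e1] at hj
  rw [e2] at hk
  refine ⟨C ((-1 : ℝ) ^ (d - (i : ℕ))) * ∏ l ∈ A, (X - C (t l)), ?_, ?_, ?_, ?_, ?_⟩
  · refine (natDegree_C_mul_le _ _).trans ?_
    refine (natDegree_prod_le _ _).trans ?_
    simp only [natDegree_X_sub_C, Finset.sum_const, smul_eq_mul, mul_one]
    exact hAc.le
  · intro l h1 h2 h3
    rw [eval_mul, eval_prod]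
    have : ∏ m ∈ A, (X - C (t m)).eval (t l) = 0 := by
      apply Finset.prod_eq_zero ((hA l).2 ⟨h1, h2, h3⟩)
      simp
    rw [this, mul_zero]
  · rw [eval_mul, eval_prod, eval_C]
    simpa using hi
  · rw [eval_mul, eval_prod, eval_C]
    simpa using hj
  · rw [eval_mul, eval_prod, eval_C]
    simpa using hk

end Pool.Agent.H15CY
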