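import Mathlib
import Pool.Agent.H15CY.Mom

/-! Covering a polytope with cyclic vertex-facet pattern by `conv (p_l : l ≠ i, j)`. -/

set_option autoImplicit false

namespace Pool.Agent.H15CY

open Set

lemma hull_weights {ι V : Type*} [Fintype ι] [AddCommGroup V] [Module ℝ V] (p : ι → V) (x : V)
    (hx : x ∈ convexHull ℝ (range p)) :
    ∃ w : ι → ℝ, (∀ i, 0 ≤ w i) ∧ ∑ i, w i = 1 ∧ ∑ i, w i • p i = x := by
  classical
  let L : (ι → ℝ) →ₗ[ℝ] V := Fintype.linearCombination ℝ p
  have h1 : Convex ℝ (L '' stdSimplex ℝ ι) := (convex_stdSimplex ℝ ι).linear_image L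
  have h2 : range p ⊆ L '' stdSimplex ℝ ι := by
    rintro _ ⟨i, rfl⟩
    refine ⟨Pi.single i 1, single_mem_stdSimplex ℝ i, ?_⟩
    simp [L, Fintype.linearCombination_apply, Pi.single_apply]
  obtain ⟨w, hw, hwx⟩ := convexHull_min h2 h1 hx
  exact ⟨w, hw.1, hw.2, hwx⟩

/-- a sum with weights supported on `A` -/
lemma hull_of_weights {ι V : Type*} [Fintype ι] [AddCommGroup V] [Module ℝ V] (p : ι → V)
    (w : ι → ℝ) (hw : ∀ i, 0 ≤ w i) (hw1 : ∑ i, w i = 1) (A : Set ι) (hA : ∀ i, i ∉ A → w i = 0) :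
    ∑ i, w i • p i ∈ convexHull ℝ (p '' A) := by
  classical
  have h1 : ∑ i, w i • p i = ∑ i ∈ Finset.univ.filter (fun i => i ∈ A), w i • p i := by
    symm
    apply Finset.sum_subset (Finset.filter_subset _ _)
    intro i _ hi
    rw [hA i (fun h => hi (Finset.mem_filter.2 ⟨Finset.mem_univ _, h⟩)), zero_smul]
  have h2 : ∑ i ∈ Finset.univ.filter (fun i => i ∈ A), w i = 1 := by
    rw [← hw1]
    apply Finset.sum_subset (Finset.filter_subset _ _)
    intro i _ hi
    exact hA i (fun h => hi (Finset.mem_filter.2 ⟨Finset.mem_univ _, h⟩))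
  rw [h1]
  refine (convex_convexHull ℝ _).sum_mem (fun i _ => hw i) h2 ?_
  intro i hi
  exact subset_convexHull ℝ _ ⟨i, (Finset.mem_filter.1 hi).2, rfl⟩

/-- every face not containing the last point lies in a facet not containing it -/
def HB {V : Type*} [NormedAddCommGroup V] [NormedSpace ℝ V] {n : ℕ} (p : Fin n → V) : Prop :=
  ∀ (f : V →L[ℝ] ℝ) (c : ℝ), (∀ l, f (p l) ≤ c) → (∃ l, f (p l) < c) →
    ∃ i j k, Alt i j k ∧ f (p i) < c ∧ f (p j) < c ∧ f (p k) < c

/-- the facets -/
def HA {V : Type*} [NormedAddCommGroup V] [NormedSpace ℝ V] {n : ℕ} (p : Fin n → V) : Prop :=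
  ∀ i j k, Alt i j k → ∃ (u : V →L[ℝ] ℝ) (c : ℝ), (∀ l, l ≠ i → l ≠ j → l ≠ k → u (p l) = c) ∧
    u (p i) < c ∧ u (p j) < c ∧ u (p k) < c

lemma HB_last {V : Type*} [NormedAddCommGroup V] [NormedSpace ℝ V] {d : ℕ} (hd : Even d)
    (p : Fin (d + 3) → V) (h : HB p) (f : V →L[ℝ] ℝ) (c : ℝ) (hf : ∀ l, f (p l) ≤ c)
    (hl : f (p (Fin.last (d + 2))) < c) :
    ∃ i j : Fin (d + 3), i < j ∧ Even (i : ℕ) ∧ Odd (j : ℕ) ∧ j < Fin.last (d + 2) ∧ f (p i) < c ∧
      f (p j) < c := by
  obtain ⟨i, j, k, ⟨hij, hjk, h1, h2⟩, hi, hj, hk⟩ := h f c hf ⟨_, hl⟩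
  have hd2 := Nat.even_iff.1 hd
  rw [Nat.odd_iff] at h1 h2
  rw [Fin.lt_def] at hij hjk
  have hk3 := k.2
  by_cases he : Even (k : ℕ)
  · rw [Nat.even_iff] at he
    refine ⟨i, j, hij, ?_, ?_, ?_, hi, hj⟩
    · rw [Nat.even_iff]; omega
    · rw [Nat.odd_iff]; omega
    · rw [Fin.lt_def, Fin.val_last]; omega
  · rw [Nat.even_iff] at he
    refine ⟨j, k, hjk, ?_, ?_, ?_, hj, hk⟩
    · rw [Nat.even_iff]; omega
    · rw [Nat.odd_iff]; omega
    · rw [Fin.lt_def, Fin.val_last]; omega

theorem cover {V : Type*} [NormedAddCommGroup V] [NormedSpace ℝ V] {d : ℕ} (hd : Even d)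
    (p : Fin (d + 3) → V) (h : HB p) (x : V) (hx : x ∈ interior (convexHull ℝ (range p))) :
    ∃ i j : Fin (d + 3), i < j ∧ Even (i : ℕ) ∧ Odd (j : ℕ) ∧
      x ∈ convexHull ℝ (p '' {l | l ≠ i ∧ l ≠ j}) := by
  classical
  set P := convexHull ℝ (range p) with hP
  set q := p (Fin.last (d + 2)) with hq
  have hPc : IsCompact P := (finite_range p).isCompact_convexHull (𝕜 := ℝ)
  have hPconv : Convex ℝ P := convex_convexHull ℝ _
  have hqP : q ∈ P := subset_convexHull ℝ _ (mem_range_self _)
  by_cases hxq : x = q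
  · refine ⟨0, 1, ?_, ?_, ?_, ?_⟩
    · rw [Fin.lt_def, Fin.val_zero, Fin.val_one]; exact Nat.zero_lt_one
    · simp
    · rw [Fin.val_one]; exact odd_one
    · rw [hxq]
      apply subset_convexHull
      refine ⟨Fin.last (d + 2), ⟨?_, ?_⟩, rfl⟩
      · rw [Ne, Fin.ext_iff, Fin.val_last, Fin.val_zero]; omega
      · rw [Ne, Fin.ext_iff, Fin.val_last, Fin.val_one]; omega
  · have hne : 0 < ‖x - q‖ := norm_pos_iff.2 (sub_ne_zero.2 hxq)
    let g : ℝ → V := fun s => q + s • (x - q)
    have hg : Continuous g := by fun_prop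
    let A : Set ℝ := g ⁻¹' P
    have hA1 : (1 : ℝ) ∈ A := by
      change q + (1 : ℝ) • (x - q) ∈ P
      rw [one_smul, add_sub_cancel]
      exact interior_subset hx
    have hAcl : IsClosed A := hPc.isClosed.preimage hg
    have hAbdd : BddAbove A := by
      obtain ⟨R, hR⟩ := hPc.isBounded.exists_norm_le
      refine ⟨2 * R / ‖x - q‖, ?_⟩
      intro s hs
      rw [le_div_iff₀ hne]
      have h1 : ‖s • (x - q)‖ ≤ 2 * R := by
        have h2 : s • (x - q) = g s - q := by simp [g]
        rw [h2]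
        refine (norm_sub_le _ _).trans ?_
        have := hR _ hs
        have := hR _ hqP
        linarith
      rw [norm_smul] at h1
      refine le_trans ?_ h1
      exact mul_le_mul_of_nonneg_right (Real.le_norm_self s) hne.le
    let s := sSup A
    have hsA : s ∈ A := hAcl.csSup_mem ⟨1, hA1⟩ hAbdd
    have hs1 : 1 ≤ s := le_csSup hAbdd hA1
    have hy : g s ∉ interior P := by
      intro hyi
      have h1 : g ⁻¹' interior P ∈ nhds s := (isOpen_interior.preimage hg).mem_nhds hyi
      obtain ⟨ε, hε, hball⟩ := Metric.mem_nhds_iff.1 h1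
      have h2 : s + ε / 2 ∈ A := by
        change g (s + ε / 2) ∈ P
        apply interior_subset
        apply hball
        rw [Metric.mem_ball, Real.dist_eq]
        rw [add_sub_cancel_left, abs_of_pos (by linarith)]
        linarith
      have := le_csSup hAbdd h2
      change s + ε / 2 ≤ s at this
      linarith
    obtain ⟨f, hf⟩ := geometric_hahn_banach_open_point hPconv.interior isOpen_interior hy
    have hfle : ∀ a ∈ P, f a ≤ f (g s) := by
      intro a ha
      have h1 : a ∈ closure (interior P) := by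
        rw [hPconv.closure_interior_eq_closure_of_nonempty_interior ⟨x, hx⟩]
        exact subset_closure ha
      have h2 : closure (interior P) ⊆ {a | f a ≤ f (g s)} := by
        apply closure_minimal
        · intro b hb
          exact (hf b hb).le
        · exact isClosed_le f.continuous continuous_const
      exact h2 h1
    have hfx : f x < f (g s) := hf x hx
    have hfg : f (g s) = f q + s * (f x - f q) := by simp [g]
    have hfq : f q < f (g s) := by
      have h3 : 0 < (s - 1) * (f x - f q) := by nlinarith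
      have h4 : 0 ≤ s - 1 := by linarith
      have h5 : 0 < f x - f q := by
        by_contra hcon
        push Not at hcon
        have := mul_nonpos_of_nonneg_of_nonpos h4 hcon
        linarith
      linarith
    obtain ⟨i, j, hij, hie, hjo, hjl, hi, hj⟩ := HB_last hd p h f (f (g s))
      (fun l => hfle _ (subset_convexHull ℝ _ (mem_range_self l))) hfq
    refine ⟨i, j, hij, hie, hjo, ?_⟩
    obtain ⟨w, hw0, hw1, hwy⟩ := hull_weights p (g s) hsA
    have hwz : ∀ l, f (p l) < f (g s) → w l = 0 := by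
      have h1 : ∑ l, w l * (f (g s) - f (p l)) = 0 := by
        simp_rw [mul_sub]
        rw [Finset.sum_sub_distrib, ← Finset.sum_mul, hw1, one_mul]
        conv_lhs => rw [← hwy]
        simp
      intro l hl
      have h2 := (Finset.sum_eq_zero_iff_of_nonneg (fun l _ => mul_nonneg (hw0 l)
        (sub_nonneg.2 (hfle _ (subset_convexHull ℝ _ (mem_range_self l)))))).1 h1 l (Finset.mem_univ l)
      rcases mul_eq_zero.1 h2 with h3 | h3
      · exact h3
      · linarith
    have hyc : g s ∈ convexHull ℝ (p '' {l | l ≠ i ∧ l ≠ j}) := by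
      rw [← hwy]
      apply hull_of_weights p w hw0 hw1
      intro l hl
      rw [Set.mem_ofPred_eq, not_and_or, not_not, not_not] at hl
      rcases hl with rfl | rfl
      · exact hwz _ hi
      · exact hwz _ hj
    have hqc : q ∈ convexHull ℝ (p '' {l | l ≠ i ∧ l ≠ j}) := by
      apply subset_convexHull
      exact ⟨Fin.last (d + 2), ⟨(hij.trans hjl).ne', hjl.ne'⟩, rfl⟩
    have hxe : x = (1 - s⁻¹) • q + s⁻¹ • g s := by
      have hs0 : s ≠ 0 := by positivity
      simp only [g]
      rw [smul_add, smul_smul, inv_mul_cancel₀ hs0, one_smul, sub_smul, one_smul]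
      abel
    rw [hxe]
    refine (convex_convexHull ℝ _) hqc hyc ?_ ?_ ?_
    · have : s⁻¹ ≤ 1 := inv_le_one_of_one_le₀ hs1
      linarith
    · positivity
    · ring

end Pool.Agent.H15CY
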