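import Mathlib

/-! An orthogonal matrix with three prescribed rows. -/

set_option autoImplicit false

namespace Pool.Agent.H15CY

open Set

/-- the index set of the vertices -/
abbrev Ix (m : Fin 3 → ℕ) := Σ a : Fin 3, Fin (m a + 1)

/-- the prescribed rows -/
noncomputable def gv (m : Fin 3 → ℕ) (a : Fin 3) : EuclideanSpace ℝ (Ix m) :=
  WithLp.toLp 2 (fun l => if l.1 = a then 1 / Real.sqrt (m a + 1) else 0)

lemma gv_inner (m : Fin 3 → ℕ) (a b : Fin 3) :
    inner ℝ (gv m a) (gv m b) = if a = b then (1 : ℝ) else 0 := by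
  rw [PiLp.inner_apply, Fintype.sum_sigma]
  simp only [gv, RCLike.inner_apply, conj_trivial]
  by_cases h : a = b
  · subst h
    rw [if_pos rfl, Finset.sum_eq_single a]
    · simp only [if_true]
      rw [Finset.sum_const, Finset.card_univ, Fintype.card_fin, nsmul_eq_mul]
      have h1 : Real.sqrt ((m a : ℝ) + 1) * Real.sqrt ((m a : ℝ) + 1) = (m a : ℝ) + 1 :=
        Real.mul_self_sqrt (by positivity)
      have h2 : (0 : ℝ) < Real.sqrt ((m a : ℝ) + 1) := Real.sqrt_pos.2 (by positivity)
      push_cast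
      field_simp
      nlinarith
    · intro c _ hc
      simp [hc]
    · intro h
      exact absurd (Finset.mem_univ _) h
  · rw [if_neg h]
    apply Finset.sum_eq_zero
    intro c _
    apply Finset.sum_eq_zero
    intro i _
    by_cases h1 : c = a
    · have h2 : ¬ c = b := fun h3 => h (h1.symm.trans h3)
      simp [h2]
    · simp [h1]

lemma exists_O (m : Fin 3 → ℕ) (d : ℕ) (hd : ∑ a, m a = d) :
    ∃ O : Matrix (Fin d ⊕ Fin 3) (Ix m) ℝ,
      (∀ x y, ∑ l, O x l * O y l = if x = y then 1 else 0) ∧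
      (∀ l l', ∑ x, O x l * O x l' = if l = l' then 1 else 0) ∧
      (∀ a l, O (Sum.inr a) l = if l.1 = a then 1 / Real.sqrt (m a + 1) else 0) := by
  classical
  let v : Fin d ⊕ Fin 3 → EuclideanSpace ℝ (Ix m) := Sum.elim (fun _ => 0) (gv m)
  have hcard : Module.finrank ℝ (EuclideanSpace ℝ (Ix m)) = Fintype.card (Fin d ⊕ Fin 3) := by
    rw [finrank_euclideanSpace, Fintype.card_sigma, Fintype.card_sum, Fintype.card_fin,
      Fintype.card_fin]
    simp only [Fintype.card_fin]
    rw [Finset.sum_add_distrib, hd]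
    simp
  have hv : Orthonormal ℝ ((range (Sum.inr : Fin 3 → Fin d ⊕ Fin 3)).domRestrict v) := by
    rw [orthonormal_iff_ite]
    rintro ⟨_, a, rfl⟩ ⟨_, b, rfl⟩
    change inner ℝ (gv m a) (gv m b) = _
    rw [gv_inner]
    by_cases h : a = b
    · subst h
      simp
    · rw [if_neg h, if_neg]
      intro h2
      apply h
      have := congrArg Subtype.val h2
      exact Sum.inr_injective this
  obtain ⟨b, hb⟩ := hv.exists_orthonormalBasis_extension_of_card_eq hcard
  refine ⟨fun x l => b x l, ?_, ?_, ?_⟩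
  · intro x y
    have h1 := orthonormal_iff_ite.1 b.orthonormal x y
    rw [PiLp.inner_apply] at h1
    simp only [RCLike.inner_apply, conj_trivial] at h1
    rw [← h1]
    apply Finset.sum_congr rfl
    intro l _
    ring
  · intro l l'
    have h1 := b.sum_inner_mul_inner (WithLp.toLp 2 (Pi.single l 1)) (WithLp.toLp 2 (Pi.single l' 1))
    have h2 : ∀ (x : EuclideanSpace ℝ (Ix m)) (l : Ix m),
        inner ℝ (WithLp.toLp 2 (Pi.single l 1) : EuclideanSpace ℝ (Ix m)) x = x l := by
      intro x l
      rw [PiLp.inner_apply]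
      simp [Pi.single_apply]
    have h3 : ∀ (x : EuclideanSpace ℝ (Ix m)) (l : Ix m),
        inner ℝ x (WithLp.toLp 2 (Pi.single l 1) : EuclideanSpace ℝ (Ix m)) = x l := by
      intro x l
      rw [real_inner_comm, h2]
    simp only [h2, h3] at h1
    rw [h1]
    simp [Pi.single_apply]
  · intro a l
    have h1 := hb (Sum.inr a) ⟨a, rfl⟩
    change (b (Sum.inr a)).ofLp l = _
    rw [h1]
    rfl

end Pool.Agent.H15CY
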