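import Mathlib
import Pool.Agent.H15CY.Orth
import Pool.Agent.H15CY.Cover
import Pool.Agent.H894R3.Simp

/-! The comparison polytope: three orthogonal regular simplices. -/

set_option autoImplicit false

namespace Pool.Agent.H15CY

open Set MeasureTheory Pool.Agent.H894R3.Simp

/-- an orthogonal matrix with three prescribed rows -/
structure Dat (m : Fin 3 → ℕ) (d : ℕ) where
  /-- the matrix -/
  O : Matrix (Fin d ⊕ Fin 3) (Ix m) ℝ
  row : ∀ x y, ∑ l, O x l * O y l = if x = y then 1 else 0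
  col : ∀ l l', ∑ x, O x l * O x l' = if l = l' then 1 else 0
  blk : ∀ a l, O (Sum.inr a) l = if l.1 = a then 1 / Real.sqrt (m a + 1) else 0
  pos : ∀ a, 0 < m a
  sum : ∑ a, m a = d

variable {m : Fin 3 → ℕ} {d : ℕ}

/-- the scaling factor -/
noncomputable def sc (m : Fin 3 → ℕ) (a : Fin 3) : ℝ := Real.sqrt (((m a : ℝ) + 1) / m a)

/-- the vertices -/
noncomputable def qq (D : Dat m d) (l : Ix m) (r : Fin d) : ℝ := sc m l.1 * D.O (Sum.inl r) l

lemma sc_sq (_D : Dat m d) (a : Fin 3) : sc m a ^ 2 = ((m a : ℝ) + 1) / m a := by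
  unfold sc
  rw [Real.sq_sqrt (by positivity)]

lemma sc_pos (D : Dat m d) (a : Fin 3) : 0 < sc m a := by
  have h : (0 : ℝ) < m a := by exact_mod_cast D.pos a
  exact Real.sqrt_pos.2 (by positivity)

lemma qq_norm (D : Dat m d) (l : Ix m) : ∑ r, qq D l r ^ 2 = 1 := by
  have h := D.col l l
  rw [if_pos rfl, Fintype.sum_sum_type] at h
  have h2 : ∑ a : Fin 3, D.O (Sum.inr a) l * D.O (Sum.inr a) l = 1 / ((m l.1 : ℝ) + 1) := by
    rw [Finset.sum_eq_single l.1]
    · rw [D.blk, if_pos rfl]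
      have h1 : Real.sqrt ((m l.1 : ℝ) + 1) * Real.sqrt ((m l.1 : ℝ) + 1) = (m l.1 : ℝ) + 1 :=
        Real.mul_self_sqrt (by positivity)
      rw [div_mul_div_comm, h1, one_mul]
    · intro a _ ha
      rw [D.blk, if_neg (Ne.symm ha), zero_mul]
    · intro h
      exact absurd (Finset.mem_univ _) h
  rw [h2] at h
  have h3 : ∑ r, qq D l r ^ 2 = sc m l.1 ^ 2 * ∑ r : Fin d, D.O (Sum.inl r) l * D.O (Sum.inl r) l := by
    rw [Finset.mul_sum]
    apply Finset.sum_congr rfl
    intro r _
    unfold qq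
    ring
  have h4 : (0 : ℝ) < m l.1 := by exact_mod_cast D.pos l.1
  rw [h3, sc_sq D]
  have h5 : ∑ r : Fin d, D.O (Sum.inl r) l * D.O (Sum.inl r) l = 1 - 1 / ((m l.1 : ℝ) + 1) := by
    linarith
  rw [h5]
  field_simp
  ring

lemma qq_zero (D : Dat m d) : (0 : Fin d → ℝ) ∈ convexHull ℝ (range (qq D)) := by
  classical
  have h1 : ∑ l : Ix m, (if l.1 = 0 then 1 / ((m 0 : ℝ) + 1) else 0) = 1 := by
    rw [Fintype.sum_sigma, Finset.sum_eq_single 0]
    · simp only [if_true]
      rw [Finset.sum_const, Finset.card_univ, Fintype.card_fin, nsmul_eq_mul]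
      push_cast
      field_simp
    · intro b _ hb
      simp [hb]
    · intro h
      exact absurd (Finset.mem_univ _) h
  have h2 := hull_of_weights (qq D) (fun l => if l.1 = 0 then 1 / ((m 0 : ℝ) + 1) else 0)
    (fun l => by split_ifs <;> positivity) h1 univ (fun i hi => absurd (mem_univ i) hi)
  rw [image_univ] at h2
  have h3 : ∑ l : Ix m, (if l.1 = 0 then 1 / ((m 0 : ℝ) + 1) else 0) • qq D l = 0 := by
    funext r
    rw [Finset.sum_apply, Pi.zero_apply]
    have h4 := D.row (Sum.inr 0) (Sum.inl r)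
    rw [if_neg (by simp)] at h4
    have h5 : ∀ l : Ix m, ((if l.1 = 0 then 1 / ((m 0 : ℝ) + 1) else 0) • qq D l) r =
        (Real.sqrt ((m 0 : ℝ) + 1) / ((m 0 : ℝ) + 1) * sc m 0) * (D.O (Sum.inr 0) l * D.O (Sum.inl r) l) := by
      intro l
      rw [Pi.smul_apply, D.blk]
      split_ifs with h
      · have h6 : (0 : ℝ) < Real.sqrt ((m 0 : ℝ) + 1) := Real.sqrt_pos.2 (by positivity)
        unfold qq
        rw [h, smul_eq_mul]
        field_simp
      · simp
    simp_rw [h5]
    rw [← Finset.mul_sum, h4, mul_zero]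
  rw [← h3]
  exact h2

lemma qq_rel (D : Dat m d) (c : Ix m → ℝ) (hc : ∑ l, c l • qq D l = 0) (l l' : Ix m)
    (h : l.1 = l'.1) : c l = c l' := by
  have h1 : ∀ r, ∑ l, D.O (Sum.inl r) l * (c l * sc m l.1) = 0 := by
    intro r
    have := congrFun hc r
    rw [Finset.sum_apply, Pi.zero_apply] at this
    rw [← this]
    apply Finset.sum_congr rfl
    intro l _
    rw [Pi.smul_apply, smul_eq_mul]
    unfold qq
    ring
  have h2 : ∀ l, c l * sc m l.1 = 1 / Real.sqrt (m l.1 + 1) *
      ∑ l', D.O (Sum.inr l.1) l' * (c l' * sc m l'.1) := by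
    intro l
    have h3 : c l * sc m l.1 = ∑ l', (if l = l' then 1 else 0) * (c l' * sc m l'.1) := by
      simp
    rw [h3]
    simp_rw [← D.col, Finset.sum_mul]
    rw [Finset.sum_comm, Fintype.sum_sum_type]
    have h4 : ∑ r : Fin d, ∑ l', D.O (Sum.inl r) l * D.O (Sum.inl r) l' * (c l' * sc m l'.1) = 0 := by
      apply Finset.sum_eq_zero
      intro r _
      simp_rw [mul_assoc]
      rw [← Finset.mul_sum]
      have := h1 r
      rw [this, mul_zero]
    rw [h4, zero_add, Finset.sum_eq_single l.1]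
    · rw [Finset.mul_sum]
      apply Finset.sum_congr rfl
      intro l' _
      rw [D.blk l.1 l, if_pos rfl]
      ring
    · intro a _ ha
      apply Finset.sum_eq_zero
      intro l' _
      rw [D.blk a l, if_neg (Ne.symm ha)]
      ring
    · intro h
      exact absurd (Finset.mem_univ _) h
  have h3 := h2 l
  have h4 := h2 l'
  rw [← h] at h4
  exact mul_right_cancel₀ (sc_pos D l.1).ne' (h3.trans h4.symm)

/-- an enumeration of the vertices with three prescribed ones at the end -/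
lemma exists_sigma (D : Dat m d) (k : ∀ a, Fin (m a + 1)) :
    ∃ σ : Fin d ⊕ Fin 3 ≃ Ix m, ∀ a, σ (Sum.inr a) = ⟨a, k a⟩ := by
  classical
  let T : Fin 3 → Ix m := fun a => ⟨a, k a⟩
  have hT : Function.Injective T := by
    intro a b h
    exact congrArg Sigma.fst h
  have hcard : Fintype.card (Ix m) = d + 3 := by
    rw [Fintype.card_sigma]
    simp only [Fintype.card_fin]
    rw [Finset.sum_add_distrib, D.sum]
    simp
  have h1 : Fintype.card {l // l ∈ range T} = 3 := by
    rw [← Fintype.card_congr (Equiv.ofInjective T hT), Fintype.card_fin]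
  have h2 : Fintype.card {l // ¬ l ∈ range T} = Fintype.card (Fin d) := by
    rw [Fintype.card_subtype_compl, h1, hcard, Fintype.card_fin]
    omega
  let e : Fin d ≃ {l // ¬ l ∈ range T} := (Fintype.equivOfCardEq h2).symm
  refine ⟨(Equiv.sumComm _ _).trans (((Equiv.ofInjective T hT).sumCongr e).trans
    (Equiv.sumCompl (fun l => l ∈ range T))), ?_⟩
  intro a
  rfl

/-- the enumeration -/
noncomputable def sg (D : Dat m d) (k : ∀ a, Fin (m a + 1)) : Fin d ⊕ Fin 3 ≃ Ix m :=
  (exists_sigma D k).choose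

lemma sg_inr (D : Dat m d) (k : ∀ a, Fin (m a + 1)) (a : Fin 3) :
    sg D k (Sum.inr a) = ⟨a, k a⟩ := (exists_sigma D k).choose_spec a

/-- the simplex omitting one vertex of each block -/
noncomputable def DK (D : Dat m d) (k : ∀ a, Fin (m a + 1)) : Set (Fin d → ℝ) :=
  convexHull ℝ (range (Fin.cons (0 : Fin d → ℝ) (fun s => qq D (sg D k (Sum.inl s)))))

lemma DK_sub (D : Dat m d) (k : ∀ a, Fin (m a + 1)) :
    DK D k ⊆ convexHull ℝ (range (qq D)) := by
  apply convexHull_min _ (convex_convexHull ℝ _)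
  rintro _ ⟨i, rfl⟩
  refine Fin.cases ?_ (fun i => ?_) i
  · exact qq_zero D
  · exact subset_convexHull ℝ _ ⟨_, rfl⟩

lemma DK_weights (D : Dat m d) (k : ∀ a, Fin (m a + 1)) (x : Fin d → ℝ) (hx : x ∈ DK D k) :
    ∃ w : Ix m → ℝ, (∀ l, 0 ≤ w l) ∧ (∀ a, w ⟨a, k a⟩ = 0) ∧ x = ∑ l, w l • qq D l := by
  obtain ⟨w, hw0, hw1, hwx⟩ := hull_weights _ x hx
  refine ⟨fun l => Sum.elim (fun s => w s.succ) (fun _ => 0) ((sg D k).symm l), ?_, ?_, ?_⟩
  · intro l
    have h1 : ∀ y : Fin d ⊕ Fin 3, 0 ≤ Sum.elim (fun s => w s.succ) (fun _ => (0 : ℝ)) y := by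
      rintro (s | a)
      · exact hw0 _
      · exact le_refl _
    exact h1 _
  · intro a
    dsimp only
    rw [← sg_inr D k a, Equiv.symm_apply_apply]
    rfl
  · rw [← hwx, Fin.sum_univ_succ]
    rw [← Equiv.sum_comp (sg D k)]
    simp only [Equiv.symm_apply_apply]
    rw [Fintype.sum_sum_type]
    simp

lemma DK_disj (D : Dat m d) (k k' : ∀ a, Fin (m a + 1)) (h : k ≠ k') :
    AEDisjoint volume (DK D k) (DK D k') := by
  classical
  obtain ⟨a, ha⟩ : ∃ a, k a ≠ k' a := by
    by_contra hcon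
    push Not at hcon
    exact h (funext hcon)
  obtain ⟨s₀, hs₀⟩ : ∃ s₀ : Fin d, sg D k (Sum.inl s₀) = ⟨a, k' a⟩ := by
    rcases hy : (sg D k).symm ⟨a, k' a⟩ with s | b
    · refine ⟨s, ?_⟩
      rw [← hy, Equiv.apply_symm_apply]
    · exfalso
      have h1 : sg D k (Sum.inr b) = ⟨a, k' a⟩ := by
        rw [← hy, Equiv.apply_symm_apply]
      rw [sg_inr] at h1
      have h2 : b = a := congrArg Sigma.fst h1
      subst h2
      simp only [Sigma.mk.injEq, heq_eq_eq, true_and] at h1
      exact ha h1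
  let W : Submodule ℝ (Fin d → ℝ) :=
    Submodule.span ℝ (range fun s : {s : Fin d // s ≠ s₀} => qq D (sg D k (Sum.inl s)))
  have hW : W ≠ ⊤ := by
    intro hW
    have h1 : Module.finrank ℝ W ≤ Fintype.card {s : Fin d // s ≠ s₀} := finrank_range_le_card _
    rw [hW, finrank_top, Module.finrank_fin_fun, Fintype.card_subtype_compl,
      Fintype.card_fin, Fintype.card_subtype_eq] at h1
    have := s₀.2
    omega
  have hsub : DK D k ∩ DK D k' ⊆ W := by
    rintro x ⟨hx, hx'⟩
    obtain ⟨w, hw0, hwk, hwx⟩ := DK_weights D k x hx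
    obtain ⟨w', hw0', hwk', hwx'⟩ := DK_weights D k' x hx'
    have h1 : ∑ l, (w l - w' l) • qq D l = 0 := by
      simp_rw [sub_smul]
      rw [Finset.sum_sub_distrib, ← hwx, ← hwx', sub_self]
    have h2 := qq_rel D _ h1 ⟨a, k a⟩ ⟨a, k' a⟩ rfl
    rw [hwk a, hwk' a] at h2
    have h3 := hw0' ⟨a, k a⟩
    have h4 := hw0 ⟨a, k' a⟩
    have h5 : w ⟨a, k' a⟩ = 0 := by linarith
    rw [hwx, ← Equiv.sum_comp (sg D k), Fintype.sum_sum_type]
    simp only [sg_inr, hwk, zero_smul, Finset.sum_const_zero, add_zero]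
    apply Submodule.sum_mem
    intro s _
    by_cases hs : s = s₀
    · rw [hs, hs₀, h5, zero_smul]
      exact Submodule.zero_mem _
    · apply Submodule.smul_mem
      exact Submodule.subset_span ⟨⟨s, hs⟩, rfl⟩
  exact measure_mono_null hsub (Measure.addHaar_submodule volume W hW)

/-- complementary minors of an orthogonal matrix -/
lemma comp_minor {ι κ : Type*} [Fintype ι] [Fintype κ] [DecidableEq ι] [DecidableEq κ]
    (F : Matrix (ι ⊕ κ) (ι ⊕ κ) ℝ) (hF : F * F.transpose = 1) :
    |F.toBlocks₁₁.det| = |F.toBlocks₂₂.det| := by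
  have h1 : |F.det| = 1 := by
    have h2 := congrArg Matrix.det hF
    rw [Matrix.det_mul, Matrix.det_transpose, Matrix.det_one] at h2
    have h3 : |F.det| * |F.det| = 1 := by rw [← abs_mul, h2, abs_one]
    nlinarith [abs_nonneg F.det]
  set A := F.toBlocks₁₁ with hA
  set B := F.toBlocks₁₂ with hB
  set C := F.toBlocks₂₁ with hC
  set E := F.toBlocks₂₂ with hE
  have hF2 : F = Matrix.fromBlocks A B C E := (Matrix.fromBlocks_toBlocks F).symm
  have h2 : Matrix.fromBlocks A B 0 (1 : Matrix κ κ ℝ) * F.transpose =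
      Matrix.fromBlocks (1 : Matrix ι ι ℝ) 0 B.transpose E.transpose := by
    rw [hF2, Matrix.fromBlocks_transpose, Matrix.fromBlocks_multiply] at hF ⊢
    rw [← Matrix.fromBlocks_one, Matrix.fromBlocks_inj] at hF
    rw [hF.1, hF.2.1]
    simp
  have h3 := congrArg Matrix.det h2
  rw [Matrix.det_mul, Matrix.det_fromBlocks_zero₂₁, Matrix.det_fromBlocks_zero₁₂,
    Matrix.det_transpose, Matrix.det_transpose, Matrix.det_one, mul_one, Matrix.det_one, one_mul] at h3
  rw [← h3, abs_mul, h1, mul_one]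

lemma DK_det (D : Dat m d) (k : ∀ a, Fin (m a + 1)) :
    |(Matrix.of fun s : Fin d => qq D (sg D k (Sum.inl s))).det| =
      ∏ a, (sc m a ^ m a / Real.sqrt (m a + 1)) := by
  classical
  let F : Matrix (Fin d ⊕ Fin 3) (Fin d ⊕ Fin 3) ℝ := fun x y => D.O x (sg D k y)
  have hF : F * F.transpose = 1 := by
    ext x y
    rw [Matrix.mul_apply, Matrix.one_apply, ← D.row x y, ← Equiv.sum_comp (sg D k)]
    rfl
  have h1 : (Matrix.of fun s : Fin d => qq D (sg D k (Sum.inl s))) =
      Matrix.diagonal (fun s : Fin d => sc m (sg D k (Sum.inl s)).1) * F.toBlocks₁₁.transpose := by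
    ext s r
    rw [Matrix.diagonal_mul]
    rfl
  have h2 : F.toBlocks₂₂ = Matrix.diagonal (fun a : Fin 3 => 1 / Real.sqrt ((m a : ℝ) + 1)) := by
    ext a b
    rw [Matrix.diagonal_apply]
    change D.O (Sum.inr a) (sg D k (Sum.inr b)) = _
    rw [sg_inr, D.blk]
    by_cases hab : a = b
    · subst hab
      simp
    · rw [if_neg hab, if_neg (fun h => hab h.symm)]
  rw [h1, Matrix.det_mul, Matrix.det_diagonal, Matrix.det_transpose, abs_mul, comp_minor F hF, h2,
    Matrix.det_diagonal]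
  have h3 : |∏ a : Fin 3, 1 / Real.sqrt ((m a : ℝ) + 1)| = 1 / ∏ a : Fin 3, Real.sqrt ((m a : ℝ) + 1) := by
    rw [abs_of_nonneg (by positivity), Finset.prod_div_distrib, Finset.prod_const_one]
  rw [h3, mul_one_div, Finset.prod_div_distrib]
  congr 1
  rw [abs_of_pos (Finset.prod_pos fun s _ => sc_pos D _)]
  have h4 : ∏ l : Ix m, sc m l.1 = ∏ a, sc m a ^ (m a + 1) := by
    rw [Fintype.prod_sigma]
    apply Finset.prod_congr rfl
    intro a _
    simp
  rw [← Equiv.prod_comp (sg D k), Fintype.prod_sum_type] at h4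
  simp only [sg_inr] at h4
  have h5 : ∏ a, sc m a ^ (m a + 1) = (∏ a, sc m a ^ m a) * ∏ a, sc m a := by
    rw [← Finset.prod_mul_distrib]
    apply Finset.prod_congr rfl
    intro a _
    rw [pow_succ]
  rw [h5] at h4
  exact mul_right_cancel₀ (Finset.prod_pos fun a _ => sc_pos D a).ne' h4

theorem lower (D : Dat m d) :
    ENNReal.ofReal (vs d * Real.sqrt (∏ a, (((m a : ℝ) + 1) * (((m a : ℝ) + 1) / m a) ^ m a))) ≤
      volume (convexHull ℝ (range (qq D))) := by
  classical
  have h1 : volume (⋃ k : (∀ a, Fin (m a + 1)), DK D k) ≤ volume (convexHull ℝ (range (qq D))) :=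
    measure_mono (iUnion_subset fun k => DK_sub D k)
  refine le_trans (le_of_eq ?_) h1
  rw [measure_iUnion₀ (fun k k' h => DK_disj D k k' h)]
  · rw [tsum_fintype]
    have h2 : ∀ k : (∀ a, Fin (m a + 1)), volume (DK D k) =
        ENNReal.ofReal ((∏ a, (sc m a ^ m a / Real.sqrt (m a + 1))) * vs d) := by
      intro k
      unfold DK
      rw [vol_simplex]
      rw [ENNReal.ofReal_mul (Finset.prod_nonneg fun a _ => by
        have := (sc_pos D a).le
        positivity)]
      congr 2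
      rw [← DK_det D k]
      congr 2
      ext s r
      simp
    simp_rw [h2]
    rw [Finset.sum_const, Finset.card_univ, Fintype.card_pi, nsmul_eq_mul,
      ← ENNReal.ofReal_natCast, ← ENNReal.ofReal_mul (by positivity)]
    congr 1
    have h3 : Real.sqrt (∏ a, (((m a : ℝ) + 1) * (((m a : ℝ) + 1) / m a) ^ m a)) =
        ∏ a, ((m a + 1) * (sc m a ^ m a / Real.sqrt (m a + 1))) := by
      rw [Real.sqrt_eq_iff_mul_self_eq]
      · rw [← Finset.prod_mul_distrib]
        apply Finset.prod_congr rfl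
        intro a _
        have h4 : Real.sqrt ((m a : ℝ) + 1) * Real.sqrt ((m a : ℝ) + 1) = (m a : ℝ) + 1 :=
          Real.mul_self_sqrt (by positivity)
        have h5 : sc m a ^ m a * sc m a ^ m a = (((m a : ℝ) + 1) / m a) ^ m a := by
          rw [← mul_pow, ← sq, sc_sq D]
        have h6 : ((m a : ℝ) + 1) * (sc m a ^ m a / Real.sqrt (m a + 1)) *
            (((m a : ℝ) + 1) * (sc m a ^ m a / Real.sqrt (m a + 1))) =
            ((m a : ℝ) + 1) * ((m a : ℝ) + 1) * (sc m a ^ m a * sc m a ^ m a) /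
              (Real.sqrt (m a + 1) * Real.sqrt (m a + 1)) := by
          ring
        rw [h6, h4, h5]
        field_simp
      · positivity
      · apply Finset.prod_nonneg
        intro a _
        have := (sc_pos D a).le
        positivity
    rw [h3, Finset.prod_mul_distrib]
    simp only [Fintype.card_fin]
    push_cast
    ring
  · intro k
    exact ((finite_range _).isCompact_convexHull (𝕜 := ℝ)).measurableSet.nullMeasurableSet

end Pool.Agent.H15CY
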