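import Mathlib
import Pool.Agent.H15CY.Cover

/-! Isomorphic face posets of two polytopes. -/

set_option autoImplicit false

namespace Pool.Agent.H15CY

open Set

/-- the poset of the exposed faces of a set, the empty face included -/
abbrev Faces {E : Type*} [NormedAddCommGroup E] [NormedSpace ℝ E] (P : Set E) :=
  {F : Set E // IsExposed ℝ P F}

section

variable {E : Type*} [NormedAddCommGroup E] [NormedSpace ℝ E] {ι : Type*} [Fintype ι]

/-- every point of the family is exposed -/
def SE (v : ι → E) : Prop := ∀ i, ∃ f : E →L[ℝ] ℝ, ∀ j, j ≠ i → f (v j) < f (v i)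

omit [Fintype ι] in
lemma hull_le (v : ι → E) (f : E →L[ℝ] ℝ) (c : ℝ) (h : ∀ j, f (v j) ≤ c) :
    ∀ y ∈ convexHull ℝ (range v), f y ≤ c := by
  have h1 : convexHull ℝ (range v) ⊆ {y | f y ≤ c} := by
    apply convexHull_min
    · rintro _ ⟨j, rfl⟩
      exact h j
    · exact convex_halfSpace_le f.toLinearMap.isLinear c
  exact fun y hy => h1 hy

omit [Fintype ι] in
lemma max_iff (v : ι → E) (f : E →L[ℝ] ℝ) (i : ι) :
    v i ∈ f.toExposed (convexHull ℝ (range v)) ↔ ∀ j, f (v j) ≤ f (v i) := by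
  constructor
  · intro h j
    exact h.2 _ (subset_convexHull ℝ _ (mem_range_self j))
  · intro h
    exact ⟨subset_convexHull ℝ _ (mem_range_self i), hull_le v f _ h⟩

lemma exists_vertex (v : ι → E) (F : Faces (convexHull ℝ (range v))) (hF : F.1.Nonempty) :
    ∃ i, v i ∈ F.1 := by
  obtain ⟨f, hf⟩ := F.2 hF
  have hne : Nonempty ι := by
    obtain ⟨x, hx⟩ := hF
    have h1 := F.2.subset hx
    by_contra hcon
    rw [not_nonempty_iff] at hcon
    rw [range_eq_empty, convexHull_empty] at h1
    exact h1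
  obtain ⟨i, hi⟩ := Finite.exists_max (fun i => f (v i))
  refine ⟨i, ?_⟩
  rw [hf]
  exact (max_iff v f i).2 hi

lemma single_eq (v : ι → E) (f : E →L[ℝ] ℝ) (i : ι) (h : ∀ j, j ≠ i → f (v j) < f (v i)) :
    f.toExposed (convexHull ℝ (range v)) = {v i} := by
  classical
  have h0 : ∀ j, f (v j) ≤ f (v i) := by
    intro j
    by_cases hj : j = i
    · rw [hj]
    · exact (h j hj).le
  ext x
  constructor
  · intro hx
    obtain ⟨w, hw0, hw1, hwx⟩ := hull_weights v x hx.1
    have h1 : f (v i) ≤ f x := hx.2 _ (subset_convexHull ℝ _ (mem_range_self i))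
    have h2 : ∑ j, w j * (f (v i) - f (v j)) ≤ 0 := by
      simp_rw [mul_sub]
      rw [Finset.sum_sub_distrib, ← Finset.sum_mul, hw1, one_mul]
      have h3 : f x = ∑ j, w j * f (v j) := by
        rw [← hwx]
        simp
      linarith
    have h3 : ∀ j, 0 ≤ w j * (f (v i) - f (v j)) := fun j =>
      mul_nonneg (hw0 j) (sub_nonneg.2 (h0 j))
    have h4 : ∑ j, w j * (f (v i) - f (v j)) = 0 :=
      le_antisymm h2 (Finset.sum_nonneg fun j _ => h3 j)
    have h5 : ∀ j, j ≠ i → w j = 0 := by
      intro j hj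
      have h6 := (Finset.sum_eq_zero_iff_of_nonneg (fun j _ => h3 j)).1 h4 j (Finset.mem_univ j)
      rcases mul_eq_zero.1 h6 with h7 | h7
      · exact h7
      · have := h j hj
        linarith
    have h6 : w i = 1 := by
      rw [← hw1, Finset.sum_eq_single i]
      · intro j _ hj
        exact h5 j hj
      · intro h
        exact absurd (Finset.mem_univ _) h
    rw [mem_singleton_iff, ← hwx, Finset.sum_eq_single i, h6, one_smul]
    · intro j _ hj
      rw [h5 j hj, zero_smul]
    · intro h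
      exact absurd (Finset.mem_univ _) h
  · rintro rfl
    exact (max_iff v f i).2 h0

/-- the vertex as a face -/
lemma single_exposed (v : ι → E) (hv : SE v) (i : ι) :
    IsExposed ℝ (convexHull ℝ (range v)) {v i} := by
  obtain ⟨f, hf⟩ := hv i
  rw [← single_eq v f i hf]
  exact ContinuousLinearMap.toExposed.isExposed

/-- minimal nonempty face -/
def Atomic {P : Set E} (F : Faces P) : Prop :=
  F.1.Nonempty ∧ ∀ G : Faces P, G.1.Nonempty → G ≤ F → G = F

lemma atomic_single (v : ι → E) (hv : SE v) (i : ι) :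
    Atomic (⟨{v i}, single_exposed v hv i⟩ : Faces (convexHull ℝ (range v))) := by
  refine ⟨⟨v i, rfl⟩, ?_⟩
  intro G hG hle
  apply Subtype.ext
  have h1 : G.1 ⊆ {v i} := hle
  exact (subset_singleton_iff_eq.1 h1).resolve_left hG.ne_empty

lemma atomic_iff (v : ι → E) (hv : SE v) (F : Faces (convexHull ℝ (range v))) (hF : Atomic F) :
    ∃ i, F = ⟨{v i}, single_exposed v hv i⟩ := by
  obtain ⟨i, hi⟩ := exists_vertex v F hF.1
  refine ⟨i, ?_⟩
  have h1 : (⟨{v i}, single_exposed v hv i⟩ : Faces (convexHull ℝ (range v))) ≤ F := by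
    change {v i} ⊆ F.1
    rw [singleton_subset_iff]
    exact hi
  exact (hF.2 ⟨{v i}, single_exposed v hv i⟩ (singleton_nonempty (v i)) h1).symm

lemma empty_iff {P : Set E} (F : Faces P) : ¬ F.1.Nonempty ↔ ∀ G : Faces P, F ≤ G := by
  constructor
  · intro h G
    rw [not_nonempty_iff_eq_empty] at h
    change F.1 ⊆ G.1
    rw [h]
    exact empty_subset _
  · intro h h2
    have h3 : F.1 ⊆ ∅ := h ⟨∅, isExposed_empty⟩
    obtain ⟨x, hx⟩ := h2
    exact h3 hx

end

section

variable {E E' : Type*} [NormedAddCommGroup E] [NormedSpace ℝ E] [NormedAddCommGroup E']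
  [NormedSpace ℝ E'] {ι κ : Type*} [Fintype ι] [Fintype κ]

lemma iso_nonempty {P : Set E} {Q : Set E'} (e : Faces P ≃o Faces Q) (F : Faces P) :
    F.1.Nonempty ↔ (e F).1.Nonempty := by
  rw [← not_iff_not, empty_iff, empty_iff]
  constructor
  · intro h G
    rw [← e.apply_symm_apply G]
    exact e.le_iff_le.2 (h _)
  · intro h G
    exact e.le_iff_le.1 (h _)

lemma iso_atomic {P : Set E} {Q : Set E'} (e : Faces P ≃o Faces Q) (F : Faces P) (hF : Atomic F) :
    Atomic (e F) := by
  refine ⟨(iso_nonempty e F).1 hF.1, ?_⟩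
  intro G hG hle
  have h1 : (e.symm G).1.Nonempty := (iso_nonempty e.symm G).1 hG
  have h2 : e.symm G ≤ F := by
    rw [← e.symm_apply_apply F]
    exact e.symm.le_iff_le.2 hle
  have h3 := hF.2 _ h1 h2
  rw [← h3, e.apply_symm_apply]

omit [Fintype ι] in
lemma vertex_inj (v : ι → E) (hv : SE v) : Function.Injective v := by
  intro i j h
  by_contra hne
  obtain ⟨f, hf⟩ := hv j
  have := hf i hne
  rw [h] at this
  exact lt_irrefl _ this

/-- an isomorphism of the face posets comes from a bijection of the vertices -/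
theorem vertex_bij (v : ι → E) (hv : SE v) (w : κ → E') (hw : SE w)
    (e : Faces (convexHull ℝ (range v)) ≃o Faces (convexHull ℝ (range w))) :
    ∃ φ : ι ≃ κ, ∀ (F : Faces (convexHull ℝ (range v))) (i : ι), v i ∈ F.1 ↔ w (φ i) ∈ (e F).1 := by
  have h1 : ∀ i, ∃ j, e ⟨{v i}, single_exposed v hv i⟩ = ⟨{w j}, single_exposed w hw j⟩ := fun i =>
    atomic_iff w hw _ (iso_atomic e _ (atomic_single v hv i))
  have h2 : ∀ j, ∃ i, e.symm ⟨{w j}, single_exposed w hw j⟩ = ⟨{v i}, single_exposed v hv i⟩ :=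
    fun j => atomic_iff v hv _ (iso_atomic e.symm _ (atomic_single w hw j))
  choose f hf using h1
  choose g hg using h2
  have hfg : ∀ j, f (g j) = j := by
    intro j
    have h3 := hf (g j)
    rw [← hg j, e.apply_symm_apply] at h3
    have h4 := congrArg Subtype.val h3
    exact (vertex_inj w hw (singleton_injective h4)).symm
  have hgf : ∀ i, g (f i) = i := by
    intro i
    have h3 := hg (f i)
    rw [← hf i, e.symm_apply_apply] at h3
    have h4 := congrArg Subtype.val h3
    exact (vertex_inj v hv (singleton_injective h4)).symm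
  refine ⟨⟨f, g, hgf, hfg⟩, ?_⟩
  intro F i
  have h3 : v i ∈ F.1 ↔ (⟨{v i}, single_exposed v hv i⟩ : Faces (convexHull ℝ (range v))) ≤ F := by
    change _ ↔ {v i} ⊆ F.1
    rw [singleton_subset_iff]
  have h4 : w (f i) ∈ (e F).1 ↔
      (⟨{w (f i)}, single_exposed w hw (f i)⟩ : Faces (convexHull ℝ (range w))) ≤ e F := by
    change _ ↔ {w (f i)} ⊆ (e F).1
    rw [singleton_subset_iff]
  change v i ∈ F.1 ↔ w (f i) ∈ (e F).1
  rw [h3, h4, ← hf i, e.le_iff_le]

end

end Pool.Agent.H15CY
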