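import Mathlib
import Pool.Agent.H15CY.Lat

/-! The moment curve and the transfer of its facet pattern. -/

set_option autoImplicit false

namespace Pool.Agent.H15CY

open Set Polynomial

/-- the moment curve -/
noncomputable def mom (d : ℕ) (s : ℝ) : EuclideanSpace ℝ (Fin d) :=
  WithLp.toLp 2 (fun r => s ^ ((r : ℕ) + 1))

lemma poly_of (d : ℕ) (f : EuclideanSpace ℝ (Fin d) →L[ℝ] ℝ) (c : ℝ) :
    ∃ p : ℝ[X], p.natDegree ≤ d ∧ ∀ s, p.eval s = c - f (mom d s) := by
  refine ⟨C c - ∑ r : Fin d, C (f (EuclideanSpace.single r 1)) * X ^ ((r : ℕ) + 1), ?_, ?_⟩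
  · refine (natDegree_sub_le _ _).trans (max_le ?_ ?_)
    · rw [natDegree_C]; exact Nat.zero_le _
    · apply natDegree_sum_le_of_forall_le
      intro r _
      refine (natDegree_C_mul_X_pow_le _ _).trans ?_
      have := r.2
      omega
  · intro s
    have h1 : mom d s = ∑ r : Fin d, (s ^ ((r : ℕ) + 1)) • EuclideanSpace.single r (1 : ℝ) := by
      ext r
      simp [mom, Finset.sum_apply, Pi.single_apply]
    have h2 : f (mom d s) = ∑ r : Fin d, s ^ ((r : ℕ) + 1) * f (EuclideanSpace.single r 1) := by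
      rw [h1, map_sum]
      simp
    rw [h2, eval_sub, eval_C, eval_finsetSum]
    congr 1
    apply Finset.sum_congr rfl
    intro r _
    rw [eval_mul, eval_C, eval_pow, eval_X]
    ring

lemma of_poly (d : ℕ) (p : ℝ[X]) (hp : p.natDegree ≤ d) :
    ∃ (f : EuclideanSpace ℝ (Fin d) →L[ℝ] ℝ) (c : ℝ), ∀ s, c - f (mom d s) = p.eval s := by
  refine ⟨∑ r : Fin d, (- p.coeff ((r : ℕ) + 1)) • (EuclideanSpace.proj r : EuclideanSpace ℝ (Fin d) →L[ℝ] ℝ),
    p.coeff 0, ?_⟩
  intro s
  rw [eval_eq_sum_range' (n := d + 1) (by omega), Finset.sum_range_succ', pow_zero, mul_one,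
    Finset.sum_range]
  rw [_root_.sum_apply]
  simp [mom]
  ring

lemma mom_SE (d : ℕ) (hd : 2 ≤ d) (T : Finset ℝ) : SE (fun x : {x // x ∈ T} => mom d x.1) := by
  intro i
  obtain ⟨f, c, hf⟩ := of_poly d ((X - C i.1) ^ 2) (by
    refine (natDegree_pow_le).trans ?_
    rw [natDegree_X_sub_C]
    omega)
  refine ⟨f, ?_⟩
  intro j hj
  have h1 := hf i.1
  have h2 := hf j.1
  rw [eval_pow, eval_sub, eval_X, eval_C] at h1 h2
  have h3 : j.1 - i.1 ≠ 0 := sub_ne_zero.2 fun h => hj (Subtype.ext h)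
  have h4 : 0 < (j.1 - i.1) ^ 2 := by positivity
  rw [sub_self] at h1
  simp only at *
  nlinarith

variable {E : Type*} [NormedAddCommGroup E] [NormedSpace ℝ E] {d : ℕ}

theorem HA_of (hd : Even d) (hd0 : 0 < d) (t : Fin (d + 3) → ℝ) (ht : StrictMono t)
    (v : Fin (d + 3) → E)
    (e : Faces (convexHull ℝ (range v)) ≃o Faces (convexHull ℝ (range fun l => mom d (t l))))
    (h : ∀ F l, v l ∈ F.1 ↔ mom d (t l) ∈ (e F).1) : HA v := by
  intro i j k hT
  obtain ⟨p, hp, hp0, hi, hj, hk⟩ := alt_poly hd t ht i j k hT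
  obtain ⟨f, c, hf⟩ := of_poly d p hp
  have hge : ∀ l, f (mom d (t l)) ≤ c := by
    intro l
    have h1 := hf (t l)
    by_cases h2 : l = i ∨ l = j ∨ l = k
    · rcases h2 with rfl | rfl | rfl <;> linarith
    · push Not at h2
      rw [hp0 l h2.1 h2.2.1 h2.2.2] at h1
      linarith
  have heq : ∀ l, l ≠ i → l ≠ j → l ≠ k → f (mom d (t l)) = c := by
    intro l h1 h2 h3
    have h4 := hf (t l)
    rw [hp0 l h1 h2 h3] at h4
    linarith
  have hlt : ∀ l, l = i ∨ l = j ∨ l = k → f (mom d (t l)) < c := by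
    intro l hl
    have h1 := hf (t l)
    rcases hl with rfl | rfl | rfl <;> linarith
  obtain ⟨l₀, h1, h2, h3⟩ : ∃ l₀ : Fin (d + 3), l₀ ≠ i ∧ l₀ ≠ j ∧ l₀ ≠ k := by
    by_contra hcon
    push Not at hcon
    have h1 : (Finset.univ : Finset (Fin (d + 3))) ⊆ {i, j, k} := by
      intro l _
      simp only [Finset.mem_insert, Finset.mem_singleton]
      by_contra h2
      push Not at h2
      exact h2.2.2 (hcon l h2.1 h2.2.1)
    have h2 := Finset.card_le_card h1
    rw [Finset.card_univ, Fintype.card_fin] at h2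
    have h3 : ({i, j, k} : Finset (Fin (d + 3))).card ≤ 3 := Finset.card_le_three
    omega
  let G : Faces (convexHull ℝ (range fun l => mom d (t l))) :=
    ⟨f.toExposed _, ContinuousLinearMap.toExposed.isExposed⟩
  have hG : ∀ l, mom d (t l) ∈ G.1 ↔ f (mom d (t l)) = c := by
    intro l
    have h4 := max_iff (fun l => mom d (t l)) f l
    refine h4.trans ?_
    constructor
    · intro h5
      have h6 := h5 l₀
      have h7 := heq l₀ h1 h2 h3
      have h8 := hge l
      linarith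
    · intro h5 j
      have h6 := hge j
      linarith
  let F := e.symm G
  have hF : ∀ l, v l ∈ F.1 ↔ f (mom d (t l)) = c := by
    intro l
    rw [h F l]
    simp only [F]
    rw [e.apply_symm_apply]
    exact hG l
  have hFl₀ : v l₀ ∈ F.1 := (hF l₀).2 (heq l₀ h1 h2 h3)
  obtain ⟨g, hg⟩ := F.2 ⟨_, hFl₀⟩
  have hF2 : ∀ l, v l ∈ F.1 ↔ ∀ j, g (v j) ≤ g (v l) := by
    intro l
    rw [hg]
    exact max_iff v g l
  have hmax := (hF2 l₀).1 hFl₀
  have hlt2 : ∀ l, l = i ∨ l = j ∨ l = k → g (v l) < g (v l₀) := by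
    intro l hl
    by_contra hcon
    push Not at hcon
    have h4 : v l ∈ F.1 := (hF2 l).2 fun j => (hmax j).trans hcon
    have h5 := (hF l).1 h4
    have := hlt l hl
    linarith
  refine ⟨g, g (v l₀), ?_, hlt2 i (Or.inl rfl), hlt2 j (Or.inr (Or.inl rfl)),
    hlt2 k (Or.inr (Or.inr rfl))⟩
  intro l h4 h5 h6
  have h7 : v l ∈ F.1 := (hF l).2 (heq l h4 h5 h6)
  exact le_antisymm (hmax l) ((hF2 l).1 h7 l₀)

theorem HB_of (hd : Even d) (hd0 : 0 < d) (t : Fin (d + 3) → ℝ) (ht : StrictMono t)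
    (v : Fin (d + 3) → E)
    (e : Faces (convexHull ℝ (range v)) ≃o Faces (convexHull ℝ (range fun l => mom d (t l))))
    (h : ∀ F l, v l ∈ F.1 ↔ mom d (t l) ∈ (e F).1) : HB v := by
  intro f c hf hstrict
  by_cases hall : ∀ l, f (v l) < c
  · refine ⟨⟨0, by omega⟩, ⟨1, by omega⟩, ⟨2, by omega⟩, ⟨?_, ?_, ?_, ?_⟩, hall _, hall _, hall _⟩
    · rw [Fin.lt_def]; exact Nat.zero_lt_one
    · rw [Fin.lt_def]; exact Nat.one_lt_two
    · exact odd_one
    · exact (by decide : Odd (1 + 2))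
  · push Not at hall
    obtain ⟨l₁, hl₁⟩ := hall
    have hl₁c : f (v l₁) = c := le_antisymm (hf l₁) hl₁
    let F : Faces (convexHull ℝ (range v)) :=
      ⟨f.toExposed _, ContinuousLinearMap.toExposed.isExposed⟩
    have hF : ∀ l, v l ∈ F.1 ↔ f (v l) = c := by
      intro l
      refine (max_iff v f l).trans ?_
      constructor
      · intro h1
        have h2 := h1 l₁
        have h3 := hf l
        linarith
      · intro h1 j
        have h2 := hf j
        linarith
    have hG : mom d (t l₁) ∈ (e F).1 := (h F l₁).1 ((hF l₁).2 hl₁c)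
    obtain ⟨g, hg⟩ := (e F).2 ⟨_, hG⟩
    have hG2 : ∀ l, mom d (t l) ∈ (e F).1 ↔ ∀ j, g (mom d (t j)) ≤ g (mom d (t l)) := by
      intro l
      rw [hg]
      exact max_iff (fun l => mom d (t l)) g l
    have hmax := (hG2 l₁).1 hG
    obtain ⟨p, hp, hpe⟩ := poly_of d g (g (mom d (t l₁)))
    have hpos : ∀ l, 0 < p.eval (t l) ↔ f (v l) < c := by
      intro l
      rw [hpe]
      constructor
      · intro h1
        refine lt_of_le_of_ne (hf l) ?_
        intro h2
        have h3 : mom d (t l) ∈ (e F).1 := (h F l).1 ((hF l).2 h2)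
        have h4 := (hG2 l).1 h3 l₁
        linarith
      · intro h1
        by_contra hcon
        push Not at hcon
        have h3 : mom d (t l) ∈ (e F).1 := (hG2 l).2 fun j => (hmax j).trans (by linarith)
        have h4 := (hF l).1 ((h F l).2 h3)
        linarith
    obtain ⟨l₂, hl₂⟩ := hstrict
    obtain ⟨i, j, k, hT, hi, hj, hk⟩ := pos_alt hd t ht p hp
      (fun l => by rw [hpe]; have := hmax l; linarith) ⟨l₂, (hpos l₂).2 hl₂⟩
    exact ⟨i, j, k, hT, (hpos i).1 hi, (hpos j).1 hj, (hpos k).1 hk⟩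

end Pool.Agent.H15CY
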