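import Mathlib
import Pool.Agent.Y43.HI.Four

/-! The discrete Wirtinger inequality with steps of length two, and the area form. -/

set_option autoImplicit false

namespace Pool.Agent.H15CY

open scoped ZMod Real ComplexConjugate
open Pool.Agent.Y43.HI

lemma pars {N : ℕ} [NeZero N] (x : ZMod N → ℝ) :
    ∑ k, Complex.normSq (ZMod.dft (fun j => (x j : ℂ)) k) = N * ∑ j, x j ^ 2 := by
  have h := parseval (N := N) (fun j => (x j : ℂ)) (fun j => (x j : ℂ))
  have h1 : (((∑ k, Complex.normSq (ZMod.dft (fun j => (x j : ℂ)) k) : ℝ)) : ℂ) =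
      ((N * ∑ j, x j ^ 2 : ℝ) : ℂ) := by
    push_cast
    simp only [Complex.normSq_eq_conj_mul_self]
    rw [h]
    congr 1
    apply Finset.sum_congr rfl
    intro j _
    rw [Complex.conj_ofReal]
    ring
  exact_mod_cast h1

lemma two_ne {N : ℕ} [NeZero N] (hodd : Odd N) (k : ZMod N) (hk : k ≠ 0) : 2 * k ≠ 0 := by
  intro h
  have h2 : IsUnit ((2 : ℕ) : ZMod N) := by
    rw [ZMod.isUnit_iff_coprime]
    exact (Nat.coprime_two_left (n := N)).2 hodd
  have h3 : IsUnit (2 : ZMod N) := by simpa using h2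
  exact hk ((h3.mul_right_eq_zero).1 h)

lemma wirt2 {N : ℕ} [NeZero N] (hN : 3 ≤ N) (hodd : Odd N) (x : ZMod N → ℝ)
    (hx : ∑ i, x i = 0) :
    4 * Real.sin (π / N) ^ 2 * ∑ i, x i ^ 2 ≤ ∑ i, (x i - x (i + 2)) ^ 2 := by
  have hN0 : (0 : ℝ) < N := by
    have : 0 < N := by omega
    exact_mod_cast this
  have h1 := pars x
  have h2 := pars (fun i => x i - x (i + 2))
  have h3 : ∀ k, ZMod.dft (fun j => ((x j - x (j + 2) : ℝ) : ℂ)) k =
      (1 - ZMod.stdAddChar (2 * k)) * ZMod.dft (fun j => (x j : ℂ)) k := by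
    intro k
    have h4 := shift (N := N) (fun j => (x j : ℂ)) 2 k
    have h5 : (fun j => ((x j - x (j + 2) : ℝ) : ℂ)) =
        (fun j => (x j : ℂ)) - (fun j => (x (j + 2) : ℂ)) := by
      funext j
      simp
    rw [h5, map_sub, Pi.sub_apply, h4]
    ring
  have h6 : ∀ k, 4 * Real.sin (π / N) ^ 2 * Complex.normSq (ZMod.dft (fun j => (x j : ℂ)) k) ≤
      Complex.normSq (ZMod.dft (fun j => ((x j - x (j + 2) : ℝ) : ℂ)) k) := by
    intro k
    rw [h3, Complex.normSq_mul]
    rcases eq_or_ne k 0 with hk | hk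
    · have h7 : ZMod.dft (fun j => (x j : ℂ)) k = 0 := by
        rw [hk, ZMod.dft_apply_zero]
        have : ((∑ i, x i : ℝ) : ℂ) = 0 := by rw [hx]; simp
        simpa using this
      rw [h7]
      simp
    · apply mul_le_mul_of_nonneg_right _ (Complex.normSq_nonneg _)
      have h8 : Complex.normSq (ZMod.stdAddChar (2 * k) : ℂ) = 1 := by
        have : ((Complex.normSq (ZMod.stdAddChar (2 * k) : ℂ) : ℝ) : ℂ) = 1 := by
          rw [Complex.normSq_eq_conj_mul_self, conj_e, ← AddChar.map_add_eq_mul]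
          simp
        exact_mod_cast this
      have h9 : Complex.normSq (1 - (ZMod.stdAddChar (2 * k) : ℂ)) =
          2 - 2 * (ZMod.stdAddChar (2 * k) : ℂ).re := by
        rw [Complex.normSq_sub, h8]
        simp
        ring
      have h10 := re_le (N := N) (by omega) (2 * k) (two_ne hodd k hk)
      have h11 : Real.cos (2 * π / N) = 1 - 2 * Real.sin (π / N) ^ 2 := by
        rw [show 2 * π / N = 2 * (π / N) by ring, Real.cos_two_mul, Real.cos_sq']
        ring
      rw [h9]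
      linarith
  have h12 : 4 * Real.sin (π / N) ^ 2 * (N * ∑ i, x i ^ 2) ≤
      N * ∑ i, (x i - x (i + 2)) ^ 2 := by
    rw [← h1, ← h2, Finset.mul_sum]
    exact Finset.sum_le_sum fun k _ => h6 k
  have h13 : N * (4 * Real.sin (π / N) ^ 2 * ∑ i, x i ^ 2) ≤
      N * ∑ i, (x i - x (i + 2)) ^ 2 := by linarith
  exact le_of_mul_le_mul_left h13 hN0

/-- the form: sum over even `i` below odd `j` -/
noncomputable def om (n : ℕ) (b c : Fin n → ℝ) : ℝ :=
  ∑ i : Fin n, ∑ j : Fin n, if i < j ∧ Even (i : ℕ) ∧ Odd (j : ℕ) then b i * c j - b j * c i else 0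

/-- the primitive -/
noncomputable def prim (n : ℕ) (c : Fin n → ℝ) (i : Fin n) : ℝ :=
  if Even (i : ℕ) then ∑ j : Fin n, (if i < j ∧ Odd (j : ℕ) then c j else 0)
  else - ∑ j : Fin n, (if j < i ∧ Even (j : ℕ) then c j else 0)

lemma om_eq (n : ℕ) (b c : Fin n → ℝ) : om n b c = ∑ i, b i * prim n c i := by
  have h1 : om n b c = ∑ i : Fin n, ∑ j : Fin n,
      (if i < j ∧ Even (i : ℕ) ∧ Odd (j : ℕ) then b i * c j else 0) -
      ∑ i : Fin n, ∑ j : Fin n,
      (if i < j ∧ Even (i : ℕ) ∧ Odd (j : ℕ) then b j * c i else 0) := by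
    unfold om
    rw [← Finset.sum_sub_distrib]
    apply Finset.sum_congr rfl
    intro i _
    rw [← Finset.sum_sub_distrib]
    apply Finset.sum_congr rfl
    intro j _
    split_ifs <;> ring
  rw [h1, Finset.sum_comm (f := fun (i j : Fin n) => if i < j ∧ Even (i : ℕ) ∧ Odd (j : ℕ) then b j * c i else 0),
    ← Finset.sum_sub_distrib]
  apply Finset.sum_congr rfl
  intro i _
  unfold prim
  by_cases hi : Even (i : ℕ)
  · have hi' : ¬ Odd (i : ℕ) := by rwa [Nat.not_odd_iff_even]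
    simp only [hi, hi', and_false, if_false, Finset.sum_const_zero, sub_zero, true_and, if_true]
    rw [Finset.mul_sum]
    apply Finset.sum_congr rfl
    intro j _
    split_ifs <;> ring
  · have hi' : Odd (i : ℕ) := by rwa [← Nat.not_even_iff_odd]
    simp only [hi, hi', and_false, if_false, Finset.sum_const_zero, zero_sub, false_and, and_true]
    rw [mul_neg, Finset.mul_sum]
    congr 1
    apply Finset.sum_congr rfl
    intro j _
    split_ifs <;> ring


lemma prim_step (d : ℕ) (hd : Even d) (c : Fin (d + 3) → ℝ) (hc : ∑ i, c i = 0)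
    (i : Fin (d + 3)) : prim (d + 3) c i - prim (d + 3) c (i + 2) = c (i + 1) := by
  have hd2 : d % 2 = 0 := Nat.even_iff.1 hd
  have hi := i.2
  have v2 : ((i + 2 : Fin (d + 3)) : ℕ) = ((i : ℕ) + 2) % (d + 3) := by
    rw [Fin.val_add]
    congr 2
  have v1 : ((i + 1 : Fin (d + 3)) : ℕ) = ((i : ℕ) + 1) % (d + 3) := by
    rw [Fin.val_add]
    congr 2
  have hsum : c (i + 1) = ∑ j : Fin (d + 3), if j = i + 1 then c j else 0 := by
    rw [Finset.sum_ite_eq']
    simp
  rcases lt_or_ge ((i : ℕ) + 2) (d + 3) with h | h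
  · rw [Nat.mod_eq_of_lt h] at v2
    rw [Nat.mod_eq_of_lt (by omega)] at v1
    by_cases he : Even (i : ℕ)
    · have he' : Even ((i + 2 : Fin (d + 3)) : ℕ) := by
        rw [v2, Nat.even_iff] at *
        omega
      rw [prim, if_pos he, prim, if_pos he', ← Finset.sum_sub_distrib, hsum]
      apply Finset.sum_congr rfl
      intro j _
      rw [Nat.even_iff] at he
      have e1 : (j = i + 1) ↔ (j : ℕ) = i + 1 := by rw [Fin.ext_iff, v1]
      have e2 : (i < j) ↔ (i : ℕ) < j := Iff.rfl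
      have e3 : (i + 2 < j) ↔ (i : ℕ) + 2 < j := by rw [Fin.lt_def, v2]
      simp only [e1, e2, e3, Nat.odd_iff]
      split_ifs <;> first | (exfalso; omega) | ring
    · have he' : ¬ Even ((i + 2 : Fin (d + 3)) : ℕ) := by
        rw [v2, Nat.even_iff] at *
        omega
      rw [prim, if_neg he, prim, if_neg he', sub_neg_eq_add, neg_add_eq_sub,
        ← Finset.sum_sub_distrib, hsum]
      apply Finset.sum_congr rfl
      intro j _
      rw [Nat.even_iff] at he
      have e1 : (j = i + 1) ↔ (j : ℕ) = i + 1 := by rw [Fin.ext_iff, v1]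
      have e2 : (j < i) ↔ (j : ℕ) < i := Iff.rfl
      have e3 : (j < i + 2) ↔ (j : ℕ) < i + 2 := by rw [Fin.lt_def, v2]
      simp only [e1, e2, e3, Nat.even_iff]
      split_ifs <;> first | (exfalso; omega) | ring
  · rcases Nat.lt_or_ge ((i : ℕ) + 1) (d + 3) with h' | h'
    · have hi1 : (i : ℕ) = d + 1 := by omega
      have v2' : ((i + 2 : Fin (d + 3)) : ℕ) = 0 := by
        rw [v2, hi1]; exact Nat.mod_self _
      rw [Nat.mod_eq_of_lt (by omega)] at v1
      have he : ¬ Even (i : ℕ) := by rw [Nat.even_iff]; omega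
      have he' : Even ((i + 2 : Fin (d + 3)) : ℕ) := by rw [v2']; exact Even.zero
      have h0 : (∑ j : Fin (d + 3), (if j < i ∧ Even (j : ℕ) then c j else 0)) +
          (∑ j : Fin (d + 3), (if i + 2 < j ∧ Odd (j : ℕ) then c j else 0)) +
          (∑ j : Fin (d + 3), if j = i + 1 then c j else 0) = ∑ j, c j := by
        rw [← Finset.sum_add_distrib, ← Finset.sum_add_distrib]
        apply Finset.sum_congr rfl
        intro j _
        have hj := j.2
        have e1 : (j = i + 1) ↔ (j : ℕ) = i + 1 := by rw [Fin.ext_iff, v1]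
        have e2 : (j < i) ↔ (j : ℕ) < i := Iff.rfl
        have e3 : (i + 2 < j) ↔ 0 < (j : ℕ) := by rw [Fin.lt_def, v2']
        simp only [e1, e2, e3, Nat.even_iff, Nat.odd_iff]
        split_ifs <;> first | (exfalso; omega) | ring
      rw [prim, if_neg he, prim, if_pos he', hsum]
      linarith
    · have hi1 : (i : ℕ) = d + 2 := by omega
      have v2' : ((i + 2 : Fin (d + 3)) : ℕ) = 1 := by
        rw [v2, hi1, show d + 2 + 2 = 1 + (d + 3) by ring, Nat.add_mod_right]
        exact Nat.mod_eq_of_lt (by omega)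
      have v1' : ((i + 1 : Fin (d + 3)) : ℕ) = 0 := by
        rw [v1, hi1]; exact Nat.mod_self _
      have he : Even (i : ℕ) := by rw [Nat.even_iff]; omega
      have he' : ¬ Even ((i + 2 : Fin (d + 3)) : ℕ) := by rw [v2']; exact Nat.not_even_one
      rw [prim, if_pos he, prim, if_neg he', sub_neg_eq_add, ← Finset.sum_add_distrib, hsum]
      apply Finset.sum_congr rfl
      intro j _
      have hj := j.2
      have e1 : (j = i + 1) ↔ (j : ℕ) = 0 := by rw [Fin.ext_iff, v1']
      have e2 : (i < j) ↔ (i : ℕ) < j := Iff.rfl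
      have e3 : (j < i + 2) ↔ (j : ℕ) < 1 := by rw [Fin.lt_def, v2']
      simp only [e1, e2, e3, Nat.even_iff, Nat.odd_iff]
      split_ifs <;> first | (exfalso; omega) | ring

/-- the bound for the form -/
theorem om_bound (d : ℕ) (hd : Even d) (b c : Fin (d + 3) → ℝ) (hb : ∑ i, b i = 0)
    (hc : ∑ i, c i = 0) :
    |om (d + 3) b c| * (2 * Real.sin (π / (d + 3 : ℕ))) ≤
      Real.sqrt (∑ i, b i ^ 2) * Real.sqrt (∑ i, c i ^ 2) := by
  have hodd : Odd (d + 3) := by
    rw [Nat.odd_iff]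
    have := Nat.even_iff.1 hd
    omega
  set m : ℝ := (∑ i, prim (d + 3) c i) / (d + 3 : ℕ) with hm
  let x : Fin (d + 3) → ℝ := fun i => prim (d + 3) c i - m
  have hx0 : ∑ i, x i = 0 := by
    simp only [x]
    rw [Finset.sum_sub_distrib, Finset.sum_const, Finset.card_univ, Fintype.card_fin, nsmul_eq_mul,
      hm, mul_div_cancel₀ _ (by positivity), sub_self]
  have hw := wirt2 (N := d + 3) (by omega) hodd x hx0
  have h1 : ∑ i : Fin (d + 3), (x i - x (i + 2)) ^ 2 = ∑ i, c i ^ 2 := by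
    have h2 : ∀ i : Fin (d + 3), x i - x (i + 2) = c (i + 1) := by
      intro i
      simp only [x]
      rw [← prim_step d hd c hc i]
      ring
    simp only [h2]
    exact Fintype.sum_equiv (Equiv.addRight 1) _ _ (fun i => rfl)
  have h3 : 4 * Real.sin (π / (d + 3 : ℕ)) ^ 2 * ∑ i, x i ^ 2 ≤ ∑ i, c i ^ 2 := by
    rw [← h1]
    exact hw
  have h4 : om (d + 3) b c = ∑ i, b i * x i := by
    rw [om_eq]
    simp only [x, mul_sub]
    rw [Finset.sum_sub_distrib, ← Finset.sum_mul, hb, zero_mul, sub_zero]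
  have h5 : |om (d + 3) b c| ≤ Real.sqrt (∑ i, b i ^ 2) * Real.sqrt (∑ i, x i ^ 2) := by
    rw [h4, ← Real.sqrt_mul (Finset.sum_nonneg fun i _ => sq_nonneg _)]
    exact Real.abs_le_sqrt (Finset.sum_mul_sq_le_sq_mul_sq _ _ _)
  have hs : 0 ≤ Real.sin (π / (d + 3 : ℕ)) := by
    apply Real.sin_nonneg_of_nonneg_of_le_pi (by positivity)
    apply div_le_self Real.pi_pos.le
    push_cast
    linarith [(Nat.cast_nonneg d : (0:ℝ) ≤ d)]
  have h6 : Real.sqrt (∑ i, x i ^ 2) * (2 * Real.sin (π / (d + 3 : ℕ))) ≤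
      Real.sqrt (∑ i, c i ^ 2) := by
    apply Real.le_sqrt_of_sq_le
    rw [mul_pow, Real.sq_sqrt (Finset.sum_nonneg fun i _ => sq_nonneg _)]
    linarith
  calc |om (d + 3) b c| * (2 * Real.sin (π / (d + 3 : ℕ)))
      ≤ Real.sqrt (∑ i, b i ^ 2) * Real.sqrt (∑ i, x i ^ 2) *
          (2 * Real.sin (π / (d + 3 : ℕ))) :=
        mul_le_mul_of_nonneg_right h5 (by positivity)
    _ = Real.sqrt (∑ i, b i ^ 2) * (Real.sqrt (∑ i, x i ^ 2) *
          (2 * Real.sin (π / (d + 3 : ℕ)))) := by ring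
    _ ≤ _ := mul_le_mul_of_nonneg_left h6 (Real.sqrt_nonneg _)

end Pool.Agent.H15CY
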