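import Mathlib
import Pool.Agent.H15CY.Wirt

/-! Determinants with two free rows. -/

set_option autoImplicit false

namespace Pool.Agent.H15CY

open scoped Real InnerProductSpace

/-- Hadamard's inequality -/
lemma hadamard (n : ℕ) (N : Matrix (Fin n) (Fin n) ℝ) :
    |N.det| ≤ ∏ i, Real.sqrt (∑ j, N i j ^ 2) := by
  classical
  have : Fact (Module.finrank ℝ (EuclideanSpace ℝ (Fin n)) = n) := ⟨by simp⟩
  let b := EuclideanSpace.basisFun (Fin n) ℝ
  let v : Fin n → EuclideanSpace ℝ (Fin n) := fun i => WithLp.toLp 2 (N i)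
  have h1 := b.toBasis.orientation.abs_volumeForm_apply_le v
  rw [Orientation.volumeForm_robust b.toBasis.orientation b rfl] at h1
  have h2 : b.toBasis.det v = N.det := by
    rw [Module.Basis.det_apply, ← Matrix.det_transpose]
    congr 1
  rw [h2] at h1
  refine h1.trans (le_of_eq ?_)
  apply Finset.prod_congr rfl
  intro i _
  rw [EuclideanSpace.norm_eq]
  congr 1
  apply Finset.sum_congr rfl
  intro j _
  simp [v]

variable {n : ℕ}

/-- the determinant as a bilinear form in the rows `a` and `b` -/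
noncomputable def BB (M : Matrix (Fin n) (Fin n) ℝ) (a b : Fin n) (hab : a ≠ b) :
    (Fin n → ℝ) →ₗ[ℝ] (Fin n → ℝ) →ₗ[ℝ] ℝ :=
  LinearMap.mk₂ ℝ (fun y z => ((M.updateRow a y).updateRow b z).det)
    (by
      intro y y' z
      have h : ∀ y, (M.updateRow a y).updateRow b z = (M.updateRow b z).updateRow a y := fun y =>
        Function.update_comm hab _ _ _
      rw [h, h, h, Matrix.det_updateRow_add])
    (by
      intro c y z
      have h : ∀ y, (M.updateRow a y).updateRow b z = (M.updateRow b z).updateRow a y := fun y =>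
        Function.update_comm hab _ _ _
      rw [h, h, Matrix.det_updateRow_smul, smul_eq_mul])
    (by
      intro y z z'
      rw [Matrix.det_updateRow_add])
    (by
      intro c y z
      rw [Matrix.det_updateRow_smul, smul_eq_mul])

lemma BB_apply (M : Matrix (Fin n) (Fin n) ℝ) (a b : Fin n) (hab : a ≠ b) (y z : Fin n → ℝ) :
    BB M a b hab y z = ((M.updateRow a y).updateRow b z).det := rfl

lemma BB_self (M : Matrix (Fin n) (Fin n) ℝ) (a b : Fin n) (hab : a ≠ b) (y : Fin n → ℝ) :
    BB M a b hab y y = 0 := by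
  rw [BB_apply]
  apply Matrix.det_zero_of_row_eq hab
  rw [Matrix.updateRow_self, Matrix.updateRow_ne hab, Matrix.updateRow_self]

lemma BB_anti (M : Matrix (Fin n) (Fin n) ℝ) (a b : Fin n) (hab : a ≠ b) (y z : Fin n → ℝ) :
    BB M a b hab y z = - BB M a b hab z y := by
  have h := BB_self M a b hab (y + z)
  simp only [map_add, LinearMap.add_apply, BB_self] at h
  linarith

lemma BB_row (M : Matrix (Fin n) (Fin n) ℝ) (a b : Fin n) (hab : a ≠ b) (r : Fin n) (hra : r ≠ a)
    (hrb : r ≠ b) (z : Fin n → ℝ) : BB M a b hab (M r) z = 0 := by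
  rw [BB_apply]
  apply Matrix.det_zero_of_row_eq hra
  rw [Matrix.updateRow_ne hrb, Matrix.updateRow_ne hra, Matrix.updateRow_ne hab,
    Matrix.updateRow_self]

lemma BB_span (M : Matrix (Fin n) (Fin n) ℝ) (a b : Fin n) (hab : a ≠ b) (y z : Fin n → ℝ)
    (hy : y ∈ Submodule.span ℝ (Set.range fun r : {r : Fin n // r ≠ a ∧ r ≠ b} => M r)) :
    BB M a b hab y z = 0 := by
  induction hy using Submodule.span_induction with
  | mem x hx =>
    obtain ⟨r, rfl⟩ := hx
    exact BB_row M a b hab r r.2.1 r.2.2 z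
  | zero => simp
  | add x y _ _ h1 h2 => rw [map_add, LinearMap.add_apply, h1, h2, add_zero]
  | smul c x _ h => rw [map_smul, LinearMap.smul_apply, h, smul_zero]

/-- the other rows -/
noncomputable def WW (M : Matrix (Fin n) (Fin n) ℝ) (a b : Fin n) :
    Submodule ℝ (EuclideanSpace ℝ (Fin n)) :=
  Submodule.span ℝ (Set.range fun r : {r : Fin n // r ≠ a ∧ r ≠ b} => WithLp.toLp 2 (M r))

lemma BB_WW (M : Matrix (Fin n) (Fin n) ℝ) (a b : Fin n) (hab : a ≠ b)
    (y : EuclideanSpace ℝ (Fin n)) (z : Fin n → ℝ) (hy : y ∈ WW M a b) :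
    BB M a b hab y.ofLp z = 0 := by
  apply BB_span
  induction hy using Submodule.span_induction with
  | mem x hx =>
    obtain ⟨r, rfl⟩ := hx
    exact Submodule.subset_span ⟨r, rfl⟩
  | zero => exact Submodule.zero_mem _
  | add x y _ _ h1 h2 => exact Submodule.add_mem _ h1 h2
  | smul c x _ h => exact Submodule.smul_mem _ _ h

lemma WW_finrank (M : Matrix (Fin n) (Fin n) ℝ) (a b : Fin n) (hab : a ≠ b) (y z : Fin n → ℝ)
    (h : BB M a b hab y z ≠ 0) : Module.finrank ℝ (WW M a b)ᗮ = 2 := by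
  classical
  have hli : LinearIndependent ℝ (fun r : Fin n => WithLp.toLp 2 (((M.updateRow a y).updateRow b z) r)
      : Fin n → EuclideanSpace ℝ (Fin n)) := by
    have h1 : LinearIndependent ℝ ((M.updateRow a y).updateRow b z).row := by
      rw [Matrix.linearIndependent_rows_iff_isUnit, Matrix.isUnit_iff_isUnit_det]
      exact isUnit_iff_ne_zero.2 h
    exact h1.map' (WithLp.linearEquiv 2 ℝ (Fin n → ℝ)).symm.toLinearMap (LinearEquiv.ker _)
  have hli2 : LinearIndependent ℝ (fun r : {r : Fin n // r ≠ a ∧ r ≠ b} =>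
      (WithLp.toLp 2 (M r) : EuclideanSpace ℝ (Fin n))) := by
    have h2 := hli.comp (fun r : {r : Fin n // r ≠ a ∧ r ≠ b} => (r : Fin n))
      Subtype.val_injective
    convert h2 using 2 with r
    simp only [Function.comp]
    rw [Matrix.updateRow_ne r.2.2, Matrix.updateRow_ne r.2.1]
  have hc : Module.finrank ℝ (WW M a b) = Fintype.card {r : Fin n // r ≠ a ∧ r ≠ b} :=
    finrank_span_eq_card hli2
  have hcard : Fintype.card {r : Fin n // r ≠ a ∧ r ≠ b} + 2 = n := by
    rw [Fintype.card_subtype]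
    have : (Finset.univ.filter fun r : Fin n => r ≠ a ∧ r ≠ b) = (Finset.univ.erase a).erase b := by
      ext r
      simp [and_comm]
    rw [this, Finset.card_erase_of_mem (by simp [hab.symm]), Finset.card_erase_of_mem (by simp)]
    simp only [Finset.card_univ, Fintype.card_fin]
    have h1 : 2 ≤ n := by
      by_contra hn
      have := a.2
      have := b.2
      apply hab
      ext
      omega
    omega
  have := Submodule.finrank_add_finrank_orthogonal (WW M a b)
  rw [hc, finrank_euclideanSpace_fin] at this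
  omega

theorem sum_bound (d : ℕ) (hd : Even d) (M : Matrix (Fin (d + 3)) (Fin (d + 3)) ℝ)
    (a b : Fin (d + 3)) (hab : a ≠ b) (r₀ : Fin (d + 3)) (h0a : r₀ ≠ a) (h0b : r₀ ≠ b)
    (h1 : ∀ l, M r₀ l = 1) :
    |∑ i : Fin (d + 3), ∑ j : Fin (d + 3), if i < j ∧ Even (i : ℕ) ∧ Odd (j : ℕ) then
      BB M a b hab (Pi.single i 1) (Pi.single j 1) else 0| * (2 * Real.sin (π / (d + 3 : ℕ))) ≤
    ∏ r ∈ (Finset.univ.erase a).erase b, Real.sqrt (∑ l, M r l ^ 2) := by
  classical
  by_cases hz : ∀ y z, BB M a b hab y z = 0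
  · simp only [hz, ite_self, Finset.sum_const_zero, abs_zero, zero_mul]
    exact Finset.prod_nonneg fun r _ => Real.sqrt_nonneg _
  · push Not at hz
    obtain ⟨y, z, hyz⟩ := hz
    have hfr := WW_finrank M a b hab y z hyz
    let β : OrthonormalBasis (Fin 2) ℝ (WW M a b)ᗮ :=
      (stdOrthonormalBasis ℝ (WW M a b)ᗮ).reindex (finCongr hfr)
    set b0 : EuclideanSpace ℝ (Fin (d + 3)) := (β 0 : EuclideanSpace ℝ (Fin (d + 3))) with hb0
    set c0 : EuclideanSpace ℝ (Fin (d + 3)) := (β 1 : EuclideanSpace ℝ (Fin (d + 3))) with hc0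
    have hproj : ∀ y : EuclideanSpace ℝ (Fin (d + 3)), y - (inner ℝ b0 y • b0 + inner ℝ c0 y • c0) ∈ WW M a b := by
      intro y
      have h2 := Submodule.sub_starProjection_mem_orthogonal (K := (WW M a b)ᗮ) y
      rw [Submodule.orthogonal_orthogonal] at h2
      have h3 : (WW M a b)ᗮ.starProjection y = inner ℝ b0 y • b0 + inner ℝ c0 y • c0 := by
        rw [Submodule.starProjection_apply, β.orthogonalProjectionOnto_apply_eq_sum, Fin.sum_univ_two]
        rfl
      rwa [h3] at h2
    have hBB : ∀ y z : EuclideanSpace ℝ (Fin (d + 3)), BB M a b hab y.ofLp z.ofLp =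
        (inner ℝ b0 y * inner ℝ c0 z - inner ℝ b0 z * inner ℝ c0 y) *
          BB M a b hab b0.ofLp c0.ofLp := by
      intro y z
      have e1 : BB M a b hab y.ofLp z.ofLp =
          inner ℝ b0 y * BB M a b hab b0.ofLp z.ofLp + inner ℝ c0 y * BB M a b hab c0.ofLp z.ofLp := by
        have := BB_WW M a b hab _ z.ofLp (hproj y)
        simp only [WithLp.ofLp_sub, WithLp.ofLp_add, WithLp.ofLp_smul, map_sub, map_add, map_smul,
          LinearMap.sub_apply, LinearMap.add_apply, LinearMap.smul_apply, smul_eq_mul] at this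
        linarith
      have e2 : ∀ u : EuclideanSpace ℝ (Fin (d + 3)), BB M a b hab u.ofLp z.ofLp =
          inner ℝ b0 z * BB M a b hab u.ofLp b0.ofLp + inner ℝ c0 z * BB M a b hab u.ofLp c0.ofLp := by
        intro u
        have := BB_WW M a b hab _ u.ofLp (hproj z)
        rw [BB_anti] at this
        simp only [WithLp.ofLp_sub, WithLp.ofLp_add, WithLp.ofLp_smul, map_sub, map_add, map_smul,
          smul_eq_mul] at this
        linarith
      rw [e1, e2, e2, BB_self, BB_self, BB_anti M a b hab c0.ofLp]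
      ring
    have hin : ∀ (u : EuclideanSpace ℝ (Fin (d + 3))) (i : Fin (d + 3)),
        inner ℝ u (WithLp.toLp 2 (Pi.single i 1) : EuclideanSpace ℝ (Fin (d + 3))) = u.ofLp i := by
      intro u i
      rw [PiLp.inner_apply]
      simp [Pi.single_apply]
    have hterm : ∀ i j : Fin (d + 3), BB M a b hab (Pi.single i 1) (Pi.single j 1) =
        (b0.ofLp i * c0.ofLp j - b0.ofLp j * c0.ofLp i) * BB M a b hab b0.ofLp c0.ofLp := by
      intro i j
      have := hBB (WithLp.toLp 2 (Pi.single i 1)) (WithLp.toLp 2 (Pi.single j 1))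
      rw [hin, hin, hin, hin] at this
      exact this
    have hsum : (∑ i : Fin (d + 3), ∑ j : Fin (d + 3), if i < j ∧ Even (i : ℕ) ∧ Odd (j : ℕ) then
      BB M a b hab (Pi.single i 1) (Pi.single j 1) else 0) =
        om (d + 3) b0.ofLp c0.ofLp * BB M a b hab b0.ofLp c0.ofLp := by
      unfold om
      rw [Finset.sum_mul]
      apply Finset.sum_congr rfl
      intro i _
      rw [Finset.sum_mul]
      apply Finset.sum_congr rfl
      intro j _
      split_ifs
      · exact hterm i j
      · rw [zero_mul]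
    have hones : ∀ u : (WW M a b)ᗮ, ∑ l, (u : EuclideanSpace ℝ (Fin (d + 3))).ofLp l = 0 := by
      intro u
      have h2 : (WithLp.toLp 2 (M r₀) : EuclideanSpace ℝ (Fin (d + 3))) ∈ WW M a b :=
        Submodule.subset_span ⟨⟨r₀, h0a, h0b⟩, rfl⟩
      have h3 := (Submodule.mem_orthogonal _ _).1 u.2 _ h2
      rw [PiLp.inner_apply] at h3
      simpa [h1] using h3
    have hnorm : ∀ i : Fin 2, ∑ l, (β i : EuclideanSpace ℝ (Fin (d + 3))).ofLp l ^ 2 = 1 := by
      intro i
      have h2 : ‖(β i : EuclideanSpace ℝ (Fin (d + 3)))‖ = 1 := by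
        have := β.orthonormal.1 i
        exact this
      rw [EuclideanSpace.norm_eq, Real.sqrt_eq_one] at h2
      simpa using h2
    have hom := om_bound d hd b0.ofLp c0.ofLp (hones (β 0)) (hones (β 1))
    rw [hnorm 0, hnorm 1, Real.sqrt_one, mul_one] at hom
    have hhad : |BB M a b hab b0.ofLp c0.ofLp| ≤
        ∏ r ∈ (Finset.univ.erase a).erase b, Real.sqrt (∑ l, M r l ^ 2) := by
      rw [BB_apply]
      refine (hadamard _ _).trans (le_of_eq ?_)
      rw [← Finset.mul_prod_erase Finset.univ _ (Finset.mem_univ a),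
        ← Finset.mul_prod_erase (Finset.univ.erase a) _ (a := b) (by simp [hab.symm])]
      rw [Matrix.updateRow_self, Matrix.updateRow_ne hab, Matrix.updateRow_self]
      rw [hnorm 0, hnorm 1, Real.sqrt_one, one_mul, one_mul]
      apply Finset.prod_congr rfl
      intro r hr
      rw [Finset.mem_erase, Finset.mem_erase] at hr
      rw [Matrix.updateRow_ne hr.1, Matrix.updateRow_ne hr.2.1]
    rw [hsum, abs_mul]
    have hs : 0 ≤ 2 * Real.sin (π / (d + 3 : ℕ)) := by
      have : 0 ≤ Real.sin (π / (d + 3 : ℕ)) := by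
        apply Real.sin_nonneg_of_nonneg_of_le_pi (by positivity)
        apply div_le_self Real.pi_pos.le
        exact_mod_cast (by omega : 1 ≤ d + 3)
      linarith
    calc |om (d + 3) b0.ofLp c0.ofLp| * |BB M a b hab b0.ofLp c0.ofLp| * (2 * Real.sin (π / (d + 3 : ℕ)))
        = (|om (d + 3) b0.ofLp c0.ofLp| * (2 * Real.sin (π / (d + 3 : ℕ)))) *
          |BB M a b hab b0.ofLp c0.ofLp| := by ring
      _ ≤ 1 * |BB M a b hab b0.ofLp c0.ofLp| := by
          apply mul_le_mul_of_nonneg_right hom (abs_nonneg _)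
      _ ≤ _ := by rw [one_mul]; exact hhad

end Pool.Agent.H15CY
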