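import Mathlib

/-! The numerical comparison. -/

set_option autoImplicit false

namespace Pool.Agent.H15CY

open scoped Real

lemma sinb (n : ℕ) (hn : 7 ≤ n) : 35.5 / (n : ℝ) ^ 2 < 4 * Real.sin (π / n) ^ 2 := by
  have hn' : (7 : ℝ) ≤ n := by exact_mod_cast hn
  have hpi1 := Real.pi_gt_d4
  have hpi2 := Real.pi_lt_d4
  have h0 : 0 < π / n := by positivity
  have h1 : π / n ≤ 1 := by
    rw [div_le_one (by linarith)]
    linarith
  have h2 : π / n - (π / n) ^ 3 / 4 < Real.sin (π / n) := by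
    have h3 := Real.sin_gt_sub_cube h0
    have h4 : 0 < (π / n) ^ 3 := by positivity
    linarith
  have h3 : (2.983 : ℝ) / n ≤ π / n - (π / n) ^ 3 / 4 := by
    have h4 : π / n - (π / n) ^ 3 / 4 = (π - π ^ 3 / (4 * (n : ℝ) ^ 2)) / n := by
      field_simp
    rw [h4]
    apply div_le_div_of_nonneg_right _ (by linarith)
    have h5 : π ^ 3 / (4 * (n : ℝ) ^ 2) ≤ (3.1416 : ℝ) ^ 3 / (4 * 7 ^ 2) := by
      apply div_le_div₀ (by positivity)
      · exact pow_le_pow_left₀ Real.pi_pos.le hpi2.le 3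
      · positivity
      · nlinarith
    norm_num at h5 ⊢
    norm_num at hpi1
    linarith
  have h6 : (2.983 : ℝ) / n < Real.sin (π / n) := lt_of_le_of_lt h3 h2
  have h7 : ((2.983 : ℝ) / n) ^ 2 < Real.sin (π / n) ^ 2 :=
    pow_lt_pow_left₀ h6 (by positivity) (by norm_num)
  have h8 : 35.5 / (n : ℝ) ^ 2 < 4 * ((2.983 : ℝ) / n) ^ 2 := by
    rw [div_pow, mul_div_assoc', div_lt_div_iff_of_pos_right (by positivity)]
    norm_num
  linarith

lemma pow_lower (m : ℕ) (hm : 0 < m) :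
    Real.exp (1 - 1 / (2 * m + 1)) ≤ (((m : ℝ) + 1) / m) ^ m := by
  have hm' : (0 : ℝ) < m := by exact_mod_cast hm
  have h1 := Real.le_log_one_add_of_nonneg (x := 1 / (m : ℝ)) (by positivity)
  have h2 : Real.exp (m * Real.log (1 + 1 / (m : ℝ))) = (((m : ℝ) + 1) / m) ^ m := by
    rw [mul_comm, Real.exp_mul, Real.exp_log (by positivity), Real.rpow_natCast]
    congr 1
    field_simp
  rw [← h2]
  apply Real.exp_le_exp.2
  have h3 : 1 - 1 / (2 * (m : ℝ) + 1) = m * (2 * (1 / (m : ℝ)) / (1 / m + 2)) := by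
    field_simp
    ring
  rw [h3]
  exact mul_le_mul_of_nonneg_left h1 hm'.le

lemma pow_upper (d : ℕ) (hd : 0 < d) : (((d + 3 : ℕ) : ℝ) / d) ^ d ≤ Real.exp 3 := by
  have hd' : (0 : ℝ) < d := by exact_mod_cast hd
  have h1 : ((d + 3 : ℕ) : ℝ) / d ≤ Real.exp (3 / d) := by
    have h2 := Real.add_one_le_exp (3 / (d : ℝ))
    refine le_trans (le_of_eq ?_) h2
    push_cast
    field_simp
    ring
  refine (pow_le_pow_left₀ (by positivity) h1 d).trans (le_of_eq ?_)
  rw [← Real.exp_nat_mul]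
  congr 1
  field_simp

lemma key (d : ℕ) (hd : Even d) (hd4 : 4 ≤ d) : ∃ m : Fin 3 → ℕ, (∀ a, 0 < m a) ∧ ∑ a, m a = d ∧
    (d + 3 : ℕ) ^ 3 * (((d + 3 : ℕ) : ℝ) / d) ^ d <
      35.5 * ∏ a, (((m a : ℝ) + 1) * (((m a : ℝ) + 1) / m a) ^ m a) := by
  rw [Nat.even_iff] at hd
  obtain ⟨m, hm | hm | hm⟩ : ∃ m, d = 3 * m ∨ d = 3 * m + 1 ∨ d = 3 * m + 2 := ⟨d / 3, by omega⟩
  · have hmp : 0 < m := by omega
    refine ⟨fun _ => m, fun _ => hmp, by rw [Fin.sum_univ_three]; omega, ?_⟩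
    have hm0 : (0 : ℝ) < m := by exact_mod_cast hmp
    have h1 : ((d + 3 : ℕ) : ℝ) / d = ((m : ℝ) + 1) / m := by
      rw [hm]
      push_cast
      field_simp
    rw [h1, hm]
    simp only [Fin.prod_univ_three]
    push_cast
    have h2 : (3 * (m : ℝ) + 3) ^ 3 * (((m : ℝ) + 1) / m) ^ (3 * m) =
        27 * (((m : ℝ) + 1) * (((m : ℝ) + 1) / m) ^ m) ^ 3 := by
      rw [mul_pow, ← pow_mul, mul_comm m 3]
      ring
    rw [h2]
    have h3 : 0 < (((m : ℝ) + 1) * (((m : ℝ) + 1) / m) ^ m) ^ 3 := by positivity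
    nlinarith
  · by_cases hsmall : m ≤ 5
    · have hm2 : m = 1 ∨ m = 3 ∨ m = 5 := by omega
      rcases hm2 with rfl | rfl | rfl
      · refine ⟨![2, 1, 1], by intro a; fin_cases a <;> simp, by simp [Fin.sum_univ_three, hm], ?_⟩
        subst hm
        simp only [Fin.prod_univ_three, Matrix.cons_val]
        norm_num
      · refine ⟨![4, 3, 3], by intro a; fin_cases a <;> simp, by simp [Fin.sum_univ_three, hm], ?_⟩
        subst hm
        simp only [Fin.prod_univ_three, Matrix.cons_val]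
        norm_num
      · refine ⟨![6, 5, 5], by intro a; fin_cases a <;> simp, by simp [Fin.sum_univ_three, hm], ?_⟩
        subst hm
        simp only [Fin.prod_univ_three, Matrix.cons_val]
        norm_num
    · refine ⟨![m + 1, m, m], ?_, ?_, ?_⟩
      · intro a
        fin_cases a <;> simp <;> omega
      · simp [Fin.sum_univ_three]
        omega
      · simp only [Fin.prod_univ_three, Matrix.cons_val_zero, Matrix.cons_val_one,
          Matrix.cons_val_two, Matrix.tail_cons, Matrix.head_cons]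
        have hm0 : (7 : ℝ) ≤ m := by exact_mod_cast (by omega : 7 ≤ m)
        have h1 := pow_lower (m + 1) (by omega)
        have h2 := pow_lower m (by omega)
        have h3 := pow_upper d (by omega)
        have h4 : Real.exp 3 * (1 - 1 / (2 * m + 3) - 2 / (2 * m + 1)) ≤
            Real.exp (1 - 1 / (2 * ((m + 1 : ℕ) : ℝ) + 1)) * (Real.exp (1 - 1 / (2 * (m : ℝ) + 1)) *
              Real.exp (1 - 1 / (2 * (m : ℝ) + 1))) := by
          rw [← Real.exp_add, ← Real.exp_add]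
          have h5 : 1 - 1 / (2 * ((m + 1 : ℕ) : ℝ) + 1) + (1 - 1 / (2 * (m : ℝ) + 1) +
              (1 - 1 / (2 * (m : ℝ) + 1))) = 3 + (- 1 / (2 * m + 3) - 2 / (2 * m + 1)) := by
            push_cast
            field_simp
            ring
          rw [h5, Real.exp_add]
          apply mul_le_mul_of_nonneg_left _ (Real.exp_pos _).le
          have := Real.add_one_le_exp (- 1 / (2 * (m : ℝ) + 3) - 2 / (2 * m + 1))
          refine le_trans (le_of_eq ?_) this
          ring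
        have h5 : Real.exp (1 - 1 / (2 * ((m + 1 : ℕ) : ℝ) + 1)) * (Real.exp (1 - 1 / (2 * (m : ℝ) + 1)) *
              Real.exp (1 - 1 / (2 * (m : ℝ) + 1))) ≤
            ((((m + 1 : ℕ) : ℝ) + 1) / ((m + 1 : ℕ) : ℝ)) ^ (m + 1) *
              ((((m : ℝ) + 1) / m) ^ m * (((m : ℝ) + 1) / m) ^ m) := by
          gcongr
        have h6 := h4.trans h5
        have h7 : ((d + 3 : ℕ) : ℝ) ^ 3 * (((d + 3 : ℕ) : ℝ) / d) ^ d ≤
            (3 * (m : ℝ) + 4) ^ 3 * Real.exp 3 := by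
          have h8 : ((d + 3 : ℕ) : ℝ) ^ 3 = (3 * (m : ℝ) + 4) ^ 3 := by
            rw [hm]; push_cast; ring
          rw [h8]
          exact mul_le_mul_of_nonneg_left h3 (by positivity)
        have h8 : (3 * (m : ℝ) + 4) ^ 3 < 35.5 * (((m : ℝ) + 2) * ((m : ℝ) + 1) ^ 2) *
            (1 - 1 / (2 * m + 3) - 2 / (2 * m + 1)) := by
          have h9 : (1 : ℝ) - 1 / (2 * m + 3) - 2 / (2 * m + 1) =
              ((2 * m + 3) * (2 * m + 1) - (2 * m + 1) - 2 * (2 * m + 3)) / ((2 * m + 3) * (2 * m + 1)) := by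
            field_simp
          rw [h9, mul_div_assoc', lt_div_iff₀ (by positivity)]
          obtain ⟨x, hx, hx2⟩ : ∃ x : ℝ, 0 ≤ x ∧ (m : ℝ) = 7 + x := ⟨m - 7, by linarith, by ring⟩
          rw [hx2]
          ring_nf
          nlinarith [pow_nonneg hx 2, pow_nonneg hx 3, pow_nonneg hx 4, pow_nonneg hx 5]
        calc ((d + 3 : ℕ) : ℝ) ^ 3 * (((d + 3 : ℕ) : ℝ) / d) ^ d
            ≤ (3 * (m : ℝ) + 4) ^ 3 * Real.exp 3 := h7
          _ < (35.5 * (((m : ℝ) + 2) * ((m : ℝ) + 1) ^ 2) *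
            (1 - 1 / (2 * m + 3) - 2 / (2 * m + 1))) * Real.exp 3 :=
              mul_lt_mul_of_pos_right h8 (Real.exp_pos _)
          _ = (35.5 * (((m : ℝ) + 2) * ((m : ℝ) + 1) ^ 2)) *
            (Real.exp 3 * (1 - 1 / (2 * m + 3) - 2 / (2 * m + 1))) := by ring
          _ ≤ (35.5 * (((m : ℝ) + 2) * ((m : ℝ) + 1) ^ 2)) *
            (((((m + 1 : ℕ) : ℝ) + 1) / ((m + 1 : ℕ) : ℝ)) ^ (m + 1) *
              ((((m : ℝ) + 1) / m) ^ m * (((m : ℝ) + 1) / m) ^ m)) :=
              mul_le_mul_of_nonneg_left h6 (by positivity)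
          _ = _ := by
              push_cast
              ring
  · by_cases hsmall : m ≤ 5
    · have hm2 : m = 2 ∨ m = 4 := by omega
      rcases hm2 with rfl | rfl
      · refine ⟨![3, 3, 2], by intro a; fin_cases a <;> simp, by simp [Fin.sum_univ_three, hm], ?_⟩
        subst hm
        simp only [Fin.prod_univ_three, Matrix.cons_val]
        norm_num
      · refine ⟨![5, 5, 4], by intro a; fin_cases a <;> simp, by simp [Fin.sum_univ_three, hm], ?_⟩
        subst hm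
        simp only [Fin.prod_univ_three, Matrix.cons_val]
        norm_num
    · refine ⟨![m + 1, m + 1, m], ?_, ?_, ?_⟩
      · intro a
        fin_cases a <;> simp <;> omega
      · simp [Fin.sum_univ_three]
        omega
      · simp only [Fin.prod_univ_three, Matrix.cons_val_zero, Matrix.cons_val_one,
          Matrix.cons_val_two, Matrix.tail_cons, Matrix.head_cons]
        have hm0 : (6 : ℝ) ≤ m := by exact_mod_cast (by omega : 6 ≤ m)
        have h1 := pow_lower (m + 1) (by omega)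
        have h2 := pow_lower m (by omega)
        have h3 := pow_upper d (by omega)
        have h4 : Real.exp 3 * (1 - 2 / (2 * m + 3) - 1 / (2 * m + 1)) ≤
            Real.exp (1 - 1 / (2 * ((m + 1 : ℕ) : ℝ) + 1)) *
              (Real.exp (1 - 1 / (2 * ((m + 1 : ℕ) : ℝ) + 1)) *
              Real.exp (1 - 1 / (2 * (m : ℝ) + 1))) := by
          rw [← Real.exp_add, ← Real.exp_add]
          have h5 : 1 - 1 / (2 * ((m + 1 : ℕ) : ℝ) + 1) + (1 - 1 / (2 * ((m + 1 : ℕ) : ℝ) + 1) +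
              (1 - 1 / (2 * (m : ℝ) + 1))) = 3 + (- 2 / (2 * m + 3) - 1 / (2 * m + 1)) := by
            push_cast
            field_simp
            ring
          rw [h5, Real.exp_add]
          apply mul_le_mul_of_nonneg_left _ (Real.exp_pos _).le
          have := Real.add_one_le_exp (- 2 / (2 * (m : ℝ) + 3) - 1 / (2 * m + 1))
          refine le_trans (le_of_eq ?_) this
          ring
        have h5 : Real.exp (1 - 1 / (2 * ((m + 1 : ℕ) : ℝ) + 1)) *
              (Real.exp (1 - 1 / (2 * ((m + 1 : ℕ) : ℝ) + 1)) *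
              Real.exp (1 - 1 / (2 * (m : ℝ) + 1))) ≤
            ((((m + 1 : ℕ) : ℝ) + 1) / ((m + 1 : ℕ) : ℝ)) ^ (m + 1) *
              (((((m + 1 : ℕ) : ℝ) + 1) / ((m + 1 : ℕ) : ℝ)) ^ (m + 1) * (((m : ℝ) + 1) / m) ^ m) := by
          gcongr
        have h6 := h4.trans h5
        have h7 : ((d + 3 : ℕ) : ℝ) ^ 3 * (((d + 3 : ℕ) : ℝ) / d) ^ d ≤
            (3 * (m : ℝ) + 5) ^ 3 * Real.exp 3 := by
          have h8 : ((d + 3 : ℕ) : ℝ) ^ 3 = (3 * (m : ℝ) + 5) ^ 3 := by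
            rw [hm]; push_cast; ring
          rw [h8]
          exact mul_le_mul_of_nonneg_left h3 (by positivity)
        have h8 : (3 * (m : ℝ) + 5) ^ 3 < 35.5 * (((m : ℝ) + 2) ^ 2 * ((m : ℝ) + 1)) *
            (1 - 2 / (2 * m + 3) - 1 / (2 * m + 1)) := by
          have h9 : (1 : ℝ) - 2 / (2 * m + 3) - 1 / (2 * m + 1) =
              ((2 * m + 3) * (2 * m + 1) - 2 * (2 * m + 1) - (2 * m + 3)) / ((2 * m + 3) * (2 * m + 1)) := by
            field_simp
          rw [h9, mul_div_assoc', lt_div_iff₀ (by positivity)]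
          obtain ⟨x, hx, hx2⟩ : ∃ x : ℝ, 0 ≤ x ∧ (m : ℝ) = 6 + x := ⟨m - 6, by linarith, by ring⟩
          rw [hx2]
          ring_nf
          nlinarith [pow_nonneg hx 2, pow_nonneg hx 3, pow_nonneg hx 4, pow_nonneg hx 5]
        calc ((d + 3 : ℕ) : ℝ) ^ 3 * (((d + 3 : ℕ) : ℝ) / d) ^ d
            ≤ (3 * (m : ℝ) + 5) ^ 3 * Real.exp 3 := h7
          _ < (35.5 * (((m : ℝ) + 2) ^ 2 * ((m : ℝ) + 1)) *
            (1 - 2 / (2 * m + 3) - 1 / (2 * m + 1))) * Real.exp 3 :=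
              mul_lt_mul_of_pos_right h8 (Real.exp_pos _)
          _ = (35.5 * (((m : ℝ) + 2) ^ 2 * ((m : ℝ) + 1))) *
            (Real.exp 3 * (1 - 2 / (2 * m + 3) - 1 / (2 * m + 1))) := by ring
          _ ≤ (35.5 * (((m : ℝ) + 2) ^ 2 * ((m : ℝ) + 1))) *
            (((((m + 1 : ℕ) : ℝ) + 1) / ((m + 1 : ℕ) : ℝ)) ^ (m + 1) *
              (((((m + 1 : ℕ) : ℝ) + 1) / ((m + 1 : ℕ) : ℝ)) ^ (m + 1) * (((m : ℝ) + 1) / m) ^ m)) :=
              mul_le_mul_of_nonneg_left h6 (by positivity)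
          _ = _ := by
              push_cast
              ring

theorem num (d : ℕ) (hd : Even d) (hd4 : 4 ≤ d) : ∃ m : Fin 3 → ℕ, (∀ a, 0 < m a) ∧ ∑ a, m a = d ∧
    Real.sqrt ((d + 3 : ℕ) * (((d + 3 : ℕ) : ℝ) / d) ^ d) / (2 * Real.sin (π / (d + 3 : ℕ))) <
      Real.sqrt (∏ a, (((m a : ℝ) + 1) * (((m a : ℝ) + 1) / m a) ^ m a)) := by
  obtain ⟨m, h0, h1, h2⟩ := key d hd hd4
  refine ⟨m, h0, h1, ?_⟩
  have hs := sinb (d + 3) (by omega)
  have hsin : 0 < Real.sin (π / (d + 3 : ℕ)) := by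
    apply Real.sin_pos_of_pos_of_lt_pi (by positivity)
    apply div_lt_self Real.pi_pos
    exact_mod_cast (by omega : 1 < d + 3)
  rw [div_lt_iff₀ (by positivity)]
  have h3 : (2 * Real.sin (π / (d + 3 : ℕ))) = Real.sqrt (4 * Real.sin (π / (d + 3 : ℕ)) ^ 2) := by
    rw [show 4 * Real.sin (π / (d + 3 : ℕ)) ^ 2 = (2 * Real.sin (π / (d + 3 : ℕ))) ^ 2 by ring,
      Real.sqrt_sq (by positivity)]
  have hprod : 0 < ∏ a, (((m a : ℝ) + 1) * (((m a : ℝ) + 1) / m a) ^ m a) := by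
    apply Finset.prod_pos
    intro a _
    have : (0 : ℝ) < m a := by exact_mod_cast h0 a
    positivity
  rw [h3, ← Real.sqrt_mul hprod.le]
  apply Real.sqrt_lt_sqrt (by positivity)
  have hn : (0 : ℝ) < (d + 3 : ℕ) := by positivity
  have h4 : ((d + 3 : ℕ) : ℝ) * (((d + 3 : ℕ) : ℝ) / d) ^ d <
      (∏ a, (((m a : ℝ) + 1) * (((m a : ℝ) + 1) / m a) ^ m a)) * (35.5 / ((d + 3 : ℕ) : ℝ) ^ 2) := by
    rw [mul_div_assoc', lt_div_iff₀ (by positivity)]
    calc ((d + 3 : ℕ) : ℝ) * (((d + 3 : ℕ) : ℝ) / d) ^ d * ((d + 3 : ℕ) : ℝ) ^ 2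
        = ((d + 3 : ℕ) : ℝ) ^ 3 * (((d + 3 : ℕ) : ℝ) / d) ^ d := by ring
      _ < _ := by
        rw [mul_comm (∏ a, _) (35.5 : ℝ)]
        exact h2
  exact h4.trans (mul_lt_mul_of_pos_left hs hprod)

end Pool.Agent.H15CY
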