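import Mathlib
import Pool.Agent.H15CY.Det
import Pool.Agent.H15CY.Cover
import Pool.Agent.H894R3.Simp

/-! The upper bound for the volume of an inscribed polytope with cyclic pattern. -/

set_option autoImplicit false

namespace Pool.Agent.H15CY

open Set MeasureTheory Pool.Agent.H894R3.Simp
open scoped Real

/-- the matrix of the points, with two free rows -/
noncomputable def MM (d : ℕ) (p : Fin (d + 3) → Fin d → ℝ) : Matrix (Fin (d + 3)) (Fin (d + 3)) ℝ :=
  Matrix.of (Fin.cons (0 : Fin (d + 3) → ℝ) (Fin.cons (0 : Fin (d + 3) → ℝ)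
    (Fin.cons (1 : Fin (d + 3) → ℝ) (fun (r : Fin d) (l : Fin (d + 3)) => p l r))))

lemma MM_two (d : ℕ) (p : Fin (d + 3) → Fin d → ℝ) (l : Fin (d + 3)) :
    MM d p (Fin.succ (Fin.succ 0)) l = 1 := rfl

lemma MM_succ (d : ℕ) (p : Fin (d + 3) → Fin d → ℝ) (r : Fin d) (l : Fin (d + 3)) :
    MM d p r.succ.succ.succ l = p l r := rfl

lemma h01 (d : ℕ) : (0 : Fin (d + 3)) ≠ Fin.succ 0 := (Fin.succ_ne_zero _).symm

lemma ss0 (d : ℕ) (r : Fin (d + 1)) : (r.succ.succ : Fin (d + 3)) ≠ 0 := Fin.succ_ne_zero _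

lemma ss1 (d : ℕ) (r : Fin (d + 1)) : (r.succ.succ : Fin (d + 3)) ≠ Fin.succ 0 :=
  fun h => Fin.succ_ne_zero _ (Fin.succ_injective _ h)

lemma BB_mat (d : ℕ) (p : Fin (d + 3) → Fin d → ℝ) (y z : Fin (d + 3) → ℝ) :
    BB (MM d p) 0 (Fin.succ 0) (h01 d) y z = (Matrix.of (Fin.cons y (Fin.cons z
    (Fin.cons (1 : Fin (d + 3) → ℝ) (fun (r : Fin d) (l : Fin (d + 3)) => p l r))))).det := by
  rw [BB_apply]
  congr 1
  ext r l
  refine Fin.cases ?_ (fun r => ?_) r
  · rw [Matrix.updateRow_ne (h01 d), Matrix.updateRow_self]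
    rfl
  · refine Fin.cases ?_ (fun r => ?_) r
    · rw [Matrix.updateRow_self]
      rfl
    · rw [Matrix.updateRow_ne (ss1 d r), Matrix.updateRow_ne (ss0 d r)]
      rfl

lemma det_single {n : ℕ} (A : Matrix (Fin (n + 1)) (Fin (n + 1)) ℝ) (i : Fin (n + 1))
    (h : ∀ l, A 0 l = (Pi.single i 1 : Fin (n + 1) → ℝ) l) :
    |A.det| = |(A.submatrix Fin.succ i.succAbove).det| := by
  rw [Matrix.det_succ_row_zero, Finset.sum_eq_single i]
  · rw [h, Pi.single_eq_same, mul_one, abs_mul, abs_pow, abs_neg, abs_one, one_pow, one_mul]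
  · intro j _ hj
    rw [h, Pi.single_eq_of_ne hj]
    ring
  · intro hi
    exact absurd (Finset.mem_univ _) hi

lemma det_ones {d : ℕ} (X : Fin (d + 1) → Fin d → ℝ) :
    (Matrix.of (Fin.cons (1 : Fin (d + 1) → ℝ) (fun (r : Fin d) (s : Fin (d + 1)) => X s r))).det =
      (Matrix.of fun i : Fin d => X i.succ - X 0).det := by
  rw [← Matrix.det_transpose]
  set B := (Matrix.of (Fin.cons (1 : Fin (d + 1) → ℝ)
    (fun (r : Fin d) (s : Fin (d + 1)) => X s r))).transpose with hB
  have hB0 : ∀ s, B s 0 = 1 := fun s => rfl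
  have hB1 : ∀ s (r : Fin d), B s r.succ = X s r := fun s r => rfl
  let A : Matrix (Fin (d + 1)) (Fin (d + 1)) ℝ :=
    Matrix.of (Fin.cons (B 0) (fun (s : Fin d) (j : Fin (d + 1)) => B s.succ j - B 0 j))
  have h1 : A.det = B.det := by
    apply Matrix.det_eq_of_forall_row_eq_smul_add_const (fun s => if s = 0 then 0 else -1) 0
    · simp
    · intro i j
      refine Fin.cases ?_ (fun i => ?_) i
      · simp [A]
      · have h2 : (i.succ : Fin (d + 1)) ≠ 0 := Fin.succ_ne_zero i
        rw [if_neg h2]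
        change B i.succ j - B 0 j = _
        ring
  rw [← h1, Matrix.det_succ_column_zero, Finset.sum_eq_single 0]
  · have h2 : A 0 0 = 1 := rfl
    rw [h2]
    simp only [Fin.val_zero, pow_zero, one_mul]
    congr 1
  · intro i _ hi
    obtain ⟨i', rfl⟩ := Fin.exists_succ_eq.2 hi
    have h2 : A i'.succ 0 = 0 := by
      change B i'.succ 0 - B 0 0 = 0
      rw [hB0, hB0, sub_self]
    rw [h2]
    ring
  · intro h
    exact absurd (Finset.mem_univ _) h

/-- the volume of the simplex spanned by all but two of the points -/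
lemma vol_ij (d : ℕ) (p : Fin (d + 3) → Fin d → ℝ) (i j : Fin (d + 3)) (hij : i ≠ j) :
    volume (convexHull ℝ (p '' {l | l ≠ i ∧ l ≠ j})) =
      ENNReal.ofReal |BB (MM d p) 0 (Fin.succ 0) (h01 d) (Pi.single i 1) (Pi.single j 1)| *
        ENNReal.ofReal (vs d) := by
  obtain ⟨j', hj'⟩ := Fin.exists_succAbove_eq hij.symm
  have hr : p '' {l | l ≠ i ∧ l ≠ j} = range (fun s => p (i.succAbove (j'.succAbove s))) := by
    ext x
    constructor
    · rintro ⟨l, ⟨hli, hlj⟩, rfl⟩
      obtain ⟨l', hl'⟩ := Fin.exists_succAbove_eq hli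
      have h2 : l' ≠ j' := by
        rintro rfl
        exact hlj (hl'.symm.trans hj')
      obtain ⟨l'', hl''⟩ := Fin.exists_succAbove_eq h2
      exact ⟨l'', by simp only [hl'', hl']⟩
    · rintro ⟨s, rfl⟩
      refine ⟨_, ⟨Fin.succAbove_ne _ _, ?_⟩, rfl⟩
      intro h
      rw [← hj'] at h
      exact Fin.succAbove_ne _ _ (Fin.succAbove_right_injective h)
  rw [hr, vol_simplex, ← det_ones (fun s => p (i.succAbove (j'.succAbove s)))]
  congr 2
  rw [BB_mat, det_single _ i (fun l => rfl), det_single _ j']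
  · congr 2
    ext r s
    refine Fin.cases ?_ (fun r => ?_) r
    · rfl
    · rfl
  · intro l
    change (Pi.single j 1 : Fin (d + 3) → ℝ) (i.succAbove l) = _
    rw [← hj']
    by_cases h : l = j'
    · rw [h, Pi.single_eq_same, Pi.single_eq_same]
    · rw [Pi.single_eq_of_ne h, Pi.single_eq_of_ne]
      intro h2
      exact h (Fin.succAbove_right_injective h2)

lemma rel (d : ℕ) (p : Fin (d + 3) → Fin d → ℝ) (u : (Fin d → ℝ) →L[ℝ] ℝ) (c : ℝ)
    (z : Fin (d + 3) → ℝ) :
    ∑ l, (c - u (p l)) * BB (MM d p) 0 (Fin.succ 0) (h01 d) (Pi.single l 1) z = 0 := by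
  have h1 : BB (MM d p) 0 (Fin.succ 0) (h01 d) (fun l => c - u (p l)) z = 0 := by
    apply BB_span
    have h2 : (fun l => c - u (p l)) = c • (MM d p (Fin.succ (Fin.succ 0))) +
        ∑ r : Fin d, (- u (Pi.single r 1)) • MM d p r.succ.succ.succ := by
      funext l
      rw [Pi.add_apply, Pi.smul_apply, MM_two, Finset.sum_apply]
      simp only [Pi.smul_apply, MM_succ, smul_eq_mul, mul_one, neg_mul, Finset.sum_neg_distrib]
      have h3 : u (p l) = ∑ r, u (Pi.single r 1) * p l r := by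
        conv_lhs => rw [pi_eq_sum_univ' (p l)]
        rw [map_sum]
        apply Finset.sum_congr rfl
        intro r _
        rw [map_smul, smul_eq_mul, mul_comm]
      rw [h3]
      ring
    rw [h2]
    apply Submodule.add_mem
    · apply Submodule.smul_mem
      apply Submodule.subset_span
      exact ⟨⟨Fin.succ (Fin.succ 0), ss0 d 0, ss1 d 0⟩, rfl⟩
    · apply Submodule.sum_mem
      intro r _
      apply Submodule.smul_mem
      apply Submodule.subset_span
      exact ⟨⟨r.succ.succ.succ, ss0 d _, ss1 d _⟩, rfl⟩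
  have h4 : (fun l => c - u (p l)) = ∑ l, (c - u (p l)) • (Pi.single l 1 : Fin (d + 3) → ℝ) := by
    funext l
    simp [Finset.sum_apply, Pi.single_apply]
  rw [h4, map_sum, LinearMap.sum_apply] at h1
  rw [← h1]
  apply Finset.sum_congr rfl
  intro l _
  rw [map_smul, LinearMap.smul_apply, smul_eq_mul]

lemma rel3 (d : ℕ) (p : Fin (d + 3) → Fin d → ℝ) (h : HA p) (i j k : Fin (d + 3))
    (hT : Alt i j k) : ∃ a b c : ℝ, 0 < a ∧ 0 < b ∧ 0 < c ∧ ∀ z,
      a * BB (MM d p) 0 (Fin.succ 0) (h01 d) (Pi.single i 1) z +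
      b * BB (MM d p) 0 (Fin.succ 0) (h01 d) (Pi.single j 1) z +
      c * BB (MM d p) 0 (Fin.succ 0) (h01 d) (Pi.single k 1) z = 0 := by
  classical
  obtain ⟨u, c, hu, hi, hj, hk⟩ := h i j k hT
  refine ⟨c - u (p i), c - u (p j), c - u (p k), by linarith, by linarith, by linarith, ?_⟩
  intro z
  have h1 := rel d p u c z
  have hij : i ≠ j := hT.1.ne
  have hjk : j ≠ k := hT.2.1.ne
  have hik : i ≠ k := (hT.1.trans hT.2.1).ne
  have h2 : ∑ l, (c - u (p l)) * BB (MM d p) 0 (Fin.succ 0) (h01 d) (Pi.single l 1) z =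
      ∑ l ∈ ({i, j, k} : Finset (Fin (d + 3))),
        (c - u (p l)) * BB (MM d p) 0 (Fin.succ 0) (h01 d) (Pi.single l 1) z := by
    symm
    apply Finset.sum_subset (Finset.subset_univ _)
    intro l _ hl
    simp only [Finset.mem_insert, Finset.mem_singleton, not_or] at hl
    rw [hu l hl.1 hl.2.1 hl.2.2, sub_self, zero_mul]
  rw [h2, Finset.sum_insert (by simp [hij, hik]), Finset.sum_insert (by simp [hjk]),
    Finset.sum_singleton] at h1
  rw [← h1]
  ring

/-- all the determinants in question have the same sign -/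
lemma sign (d : ℕ) (hd : Even d) (p : Fin (d + 3) → Fin d → ℝ) (h : HA p) :
    ∃ σ : ℝ, ∀ i j : Fin (d + 3), i < j → Even (i : ℕ) → Odd (j : ℕ) → ∃ c : ℝ, 0 < c ∧
      BB (MM d p) 0 (Fin.succ 0) (h01 d) (Pi.single i 1) (Pi.single j 1) = c * σ := by
  set B := BB (MM d p) 0 (Fin.succ 0) (h01 d) with hB
  have hd2 := Nat.even_iff.1 hd
  let last : Fin (d + 3) := Fin.last (d + 2)
  let prev : Fin (d + 3) := ⟨d + 1, by omega⟩
  refine ⟨B (Pi.single prev 1) (Pi.single last 1), ?_⟩
  intro i j hij hi hj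
  rw [Nat.even_iff] at hi
  rw [Nat.odd_iff] at hj
  have hjl := j.2
  have hij' : (i : ℕ) < j := hij
  have T1 : Alt i j last := by
    refine ⟨hij, ?_, ?_, ?_⟩
    · rw [Fin.lt_def, Fin.val_last]; omega
    · rw [Nat.odd_iff]; omega
    · rw [Nat.odd_iff, Fin.val_last]; omega
  have T2 : Alt i prev last := by
    refine ⟨?_, ?_, ?_, ?_⟩
    · rw [Fin.lt_def]; change (i : ℕ) < d + 1; omega
    · rw [Fin.lt_def, Fin.val_last]; change d + 1 < d + 2; omega
    · rw [Nat.odd_iff]; change ((i : ℕ) + (d + 1)) % 2 = 1; omega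
    · rw [Nat.odd_iff, Fin.val_last]; change ((d + 1) + (d + 2)) % 2 = 1; omega
  obtain ⟨a, b, c, ha, hb, hc, h1⟩ := rel3 d p h _ _ _ T1
  obtain ⟨a', b', c', ha', hb', hc', h2⟩ := rel3 d p h _ _ _ T2
  have e1 := h1 (Pi.single i 1)
  have e2 := h2 (Pi.single last 1)
  rw [BB_self, BB_anti _ _ _ _ (Pi.single j 1), BB_anti _ _ _ _ (Pi.single last 1)] at e1
  rw [BB_self] at e2
  rw [← hB] at e1 e2
  refine ⟨(c / b) * (b' / a'), by positivity, ?_⟩
  have e3 : B (Pi.single i 1) (Pi.single last 1) = - (b' / a') * B (Pi.single prev 1) (Pi.single last 1) := by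
    field_simp
    linarith
  have e4 : B (Pi.single i 1) (Pi.single j 1) = - (c / b) * B (Pi.single i 1) (Pi.single last 1) := by
    field_simp
    linarith
  rw [e4, e3]
  ring

lemma sum_abs (d : ℕ) (hd : Even d) (p : Fin (d + 3) → Fin d → ℝ) (h : HA p) :
    (∑ i : Fin (d + 3), ∑ j : Fin (d + 3), if i < j ∧ Even (i : ℕ) ∧ Odd (j : ℕ) then
      |BB (MM d p) 0 (Fin.succ 0) (h01 d) (Pi.single i 1) (Pi.single j 1)| else 0) =
    |∑ i : Fin (d + 3), ∑ j : Fin (d + 3), if i < j ∧ Even (i : ℕ) ∧ Odd (j : ℕ) then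
      BB (MM d p) 0 (Fin.succ 0) (h01 d) (Pi.single i 1) (Pi.single j 1) else 0| := by
  obtain ⟨σ, hσ⟩ := sign d hd p h
  rcases le_total 0 σ with h0 | h0
  · rw [abs_of_nonneg]
    · apply Finset.sum_congr rfl
      intro i _
      apply Finset.sum_congr rfl
      intro j _
      split_ifs with hc
      · obtain ⟨c, hc0, hc1⟩ := hσ i j hc.1 hc.2.1 hc.2.2
        rw [hc1, abs_of_nonneg (by positivity)]
      · rfl
    · apply Finset.sum_nonneg
      intro i _
      apply Finset.sum_nonneg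
      intro j _
      split_ifs with hc
      · obtain ⟨c, hc0, hc1⟩ := hσ i j hc.1 hc.2.1 hc.2.2
        rw [hc1]
        positivity
      · exact le_refl _
  · rw [abs_of_nonpos]
    · rw [← Finset.sum_neg_distrib]
      apply Finset.sum_congr rfl
      intro i _
      rw [← Finset.sum_neg_distrib]
      apply Finset.sum_congr rfl
      intro j _
      split_ifs with hc
      · obtain ⟨c, hc0, hc1⟩ := hσ i j hc.1 hc.2.1 hc.2.2
        rw [hc1, abs_of_nonpos (mul_nonpos_of_nonneg_of_nonpos hc0.le h0)]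
      · simp
    · apply Finset.sum_nonpos
      intro i _
      apply Finset.sum_nonpos
      intro j _
      split_ifs with hc
      · obtain ⟨c, hc0, hc1⟩ := hσ i j hc.1 hc.2.1 hc.2.2
        rw [hc1]
        exact mul_nonpos_of_nonneg_of_nonpos hc0.le h0
      · exact le_refl _

lemma am_gm (d : ℕ) (hd : 0 < d) (x : Fin d → ℝ) (hx : ∀ i, 0 ≤ x i) :
    ∏ i, x i ≤ ((∑ i, x i) / d) ^ d := by
  have hd' : (0 : ℝ) < d := by exact_mod_cast hd
  have h := Real.geom_mean_le_arith_mean_weighted Finset.univ (fun _ : Fin d => (1 : ℝ) / d) x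
    (fun _ _ => by positivity) (by simp; field_simp) (fun i _ => hx i)
  have h2 : (∏ i, x i ^ ((1 : ℝ) / d)) ^ d = ∏ i, x i := by
    rw [← Finset.prod_pow]
    apply Finset.prod_congr rfl
    intro i _
    rw [← Real.rpow_natCast, ← Real.rpow_mul (hx i), one_div, inv_mul_cancel₀ hd'.ne', Real.rpow_one]
  have h3 : ∑ i, (1 : ℝ) / d * x i = (∑ i, x i) / d := by
    rw [← Finset.mul_sum]
    ring
  rw [h3] at h
  rw [← h2]
  apply pow_le_pow_left₀ _ h
  exact Finset.prod_nonneg fun i _ => Real.rpow_nonneg (hx i) _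

theorem upper (d : ℕ) (hd : Even d) (hd0 : 0 < d) (p : Fin (d + 3) → Fin d → ℝ)
    (hn : ∀ l, ∑ r, p l r ^ 2 = 1) (hA : HA p) (hB : HB p) :
    volume (convexHull ℝ (range p)) ≤ ENNReal.ofReal (vs d *
      (Real.sqrt ((d + 3 : ℕ) * (((d + 3 : ℕ) : ℝ) / d) ^ d) / (2 * Real.sin (π / (d + 3 : ℕ))))) := by
  classical
  have hsin : 0 < Real.sin (π / (d + 3 : ℕ)) := by
    apply Real.sin_pos_of_pos_of_lt_pi (by positivity)
    apply div_lt_self Real.pi_pos
    exact_mod_cast (by omega : 1 < d + 3)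
  have hconv : Convex ℝ (convexHull ℝ (range p)) := convex_convexHull ℝ _
  have h1 : volume (convexHull ℝ (range p)) ≤ volume (interior (convexHull ℝ (range p))) := by
    have h2 : convexHull ℝ (range p) ⊆ interior (convexHull ℝ (range p)) ∪
        frontier (convexHull ℝ (range p)) := by
      intro x hx
      by_cases hxi : x ∈ interior (convexHull ℝ (range p))
      · exact Or.inl hxi
      · exact Or.inr ⟨subset_closure hx, hxi⟩
    refine (measure_mono h2).trans ((measure_union_le _ _).trans ?_)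
    rw [hconv.addHaar_frontier volume, add_zero]
  have h2 : interior (convexHull ℝ (range p)) ⊆ ⋃ i : Fin (d + 3), ⋃ j : Fin (d + 3),
      if i < j ∧ Even (i : ℕ) ∧ Odd (j : ℕ) then convexHull ℝ (p '' {l | l ≠ i ∧ l ≠ j}) else ∅ := by
    intro x hx
    obtain ⟨i, j, hij, hi, hj, hx2⟩ := cover hd p hB x hx
    rw [mem_iUnion]
    refine ⟨i, ?_⟩
    rw [mem_iUnion]
    refine ⟨j, ?_⟩
    rw [if_pos ⟨hij, hi, hj⟩]
    exact hx2
  have h3 : volume (interior (convexHull ℝ (range p))) ≤ ∑ i : Fin (d + 3), ∑ j : Fin (d + 3),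
      if i < j ∧ Even (i : ℕ) ∧ Odd (j : ℕ) then
        ENNReal.ofReal (|BB (MM d p) 0 (Fin.succ 0) (h01 d) (Pi.single i 1) (Pi.single j 1)| * vs d)
      else 0 := by
    refine (measure_mono h2).trans ((measure_iUnion_fintype_le _ _).trans ?_)
    apply Finset.sum_le_sum
    intro i _
    refine (measure_iUnion_fintype_le _ _).trans ?_
    apply Finset.sum_le_sum
    intro j _
    split_ifs with hc
    · rw [vol_ij d p i j hc.1.ne, ← ENNReal.ofReal_mul (abs_nonneg _)]
    · simp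
  have h4 : (∑ i : Fin (d + 3), ∑ j : Fin (d + 3),
      if i < j ∧ Even (i : ℕ) ∧ Odd (j : ℕ) then
        ENNReal.ofReal (|BB (MM d p) 0 (Fin.succ 0) (h01 d) (Pi.single i 1) (Pi.single j 1)| * vs d)
      else 0) = ENNReal.ofReal (vs d * ∑ i : Fin (d + 3), ∑ j : Fin (d + 3),
        if i < j ∧ Even (i : ℕ) ∧ Odd (j : ℕ) then
      |BB (MM d p) 0 (Fin.succ 0) (h01 d) (Pi.single i 1) (Pi.single j 1)| else 0) := by
    rw [Finset.mul_sum, ENNReal.ofReal_sum_of_nonneg]
    · apply Finset.sum_congr rfl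
      intro i _
      rw [Finset.mul_sum, ENNReal.ofReal_sum_of_nonneg]
      · apply Finset.sum_congr rfl
        intro j _
        split_ifs
        · rw [mul_comm]
        · simp
      · intro j _
        apply mul_nonneg (vs_pos d).le
        split_ifs
        · exact abs_nonneg _
        · exact le_refl _
    · intro i _
      apply mul_nonneg (vs_pos d).le
      apply Finset.sum_nonneg
      intro j _
      split_ifs
      · exact abs_nonneg _
      · exact le_refl _
  rw [h4, sum_abs d hd p hA] at h3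
  refine h1.trans (h3.trans ?_)
  apply ENNReal.ofReal_le_ofReal
  apply mul_le_mul_of_nonneg_left _ (vs_pos d).le
  rw [le_div_iff₀ (by positivity)]
  refine (sum_bound d hd (MM d p) 0 (Fin.succ 0) (h01 d) (Fin.succ (Fin.succ 0))
    (ss0 d 0) (ss1 d 0) (MM_two d p)).trans ?_
  have h5 : ∏ r ∈ (Finset.univ.erase (0 : Fin (d + 3))).erase (Fin.succ 0),
      Real.sqrt (∑ l, MM d p r l ^ 2) = Real.sqrt (d + 3 : ℕ) *
        ∏ r : Fin d, Real.sqrt (∑ l, p l r ^ 2) := by
    have h6 : (Finset.univ.erase (0 : Fin (d + 3))).erase (Fin.succ 0) =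
        Finset.univ.map ((Fin.succEmb (d + 1)).trans (Fin.succEmb (d + 2))) := by
      ext r
      simp only [Finset.mem_erase, Finset.mem_univ, and_true, Finset.mem_map, true_and,
        Function.Embedding.trans_apply, Fin.coe_succEmb]
      constructor
      · rintro ⟨h7, h8⟩
        obtain ⟨r', rfl⟩ := Fin.exists_succ_eq.2 h8
        have h9 : r' ≠ 0 := by
          rintro rfl
          exact h7 rfl
        obtain ⟨r'', rfl⟩ := Fin.exists_succ_eq.2 h9
        exact ⟨r'', rfl⟩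
      · rintro ⟨r', rfl⟩
        exact ⟨ss1 d r', ss0 d r'⟩
    rw [h6, Finset.prod_map, Fin.prod_univ_succ]
    congr 1
    simp only [Function.Embedding.trans_apply, Fin.coe_succEmb, MM_two]
    simp
  rw [h5]
  have h6 : ∏ r : Fin d, Real.sqrt (∑ l, p l r ^ 2) = Real.sqrt (∏ r : Fin d, ∑ l, p l r ^ 2) := by
    rw [Real.sqrt_prod]
    intro r _
    positivity
  rw [h6, ← Real.sqrt_mul (by positivity)]
  apply Real.sqrt_le_sqrt
  apply mul_le_mul_of_nonneg_left _ (by positivity)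
  refine (am_gm d hd0 _ (fun r => by positivity)).trans (le_of_eq ?_)
  rw [Finset.sum_comm]
  simp [hn]

end Pool.Agent.H15CY
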