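import Mathlib
import Pool.Agent.H15CY.Upper
import Pool.Agent.H15CY.Cand
import Pool.Agent.H15CY.Num
import Pool.Agent.H15CY.Curve

/-! Putting things together. -/

set_option autoImplicit false

namespace Pool.Agent.H15CY

open Set MeasureTheory Pool.Agent.H894R3.Simp
open scoped Real

/-- adding a point outside a polytope of positive volume increases the volume -/
lemma vol_insert {E : Type*} [NormedAddCommGroup E] [NormedSpace ℝ E] [MeasurableSpace E]
    [BorelSpace E] [FiniteDimensional ℝ E] (μ : Measure E) [μ.IsAddHaarMeasure]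
    (S : Set E) (hS : S.Finite) (hpos : 0 < μ (convexHull ℝ S)) (x : E)
    (hx : x ∉ convexHull ℝ S) : μ (convexHull ℝ S) < μ (convexHull ℝ (insert x S)) := by
  set P := convexHull ℝ S with hP
  set P' := convexHull ℝ (insert x S) with hP'
  have hPc : IsCompact P := hS.isCompact_convexHull (𝕜 := ℝ)
  have hconv : Convex ℝ P := convex_convexHull ℝ _
  have hconv' : Convex ℝ P' := convex_convexHull ℝ _
  have hsub : P ⊆ P' := convexHull_mono (subset_insert _ _)
  have hint : (interior P).Nonempty := by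
    by_contra hcon
    rw [not_nonempty_iff_eq_empty] at hcon
    have h2 : P ⊆ frontier P := by
      intro y hy
      refine ⟨subset_closure hy, ?_⟩
      rw [hcon]
      exact notMem_empty y
    have h3 := measure_mono_null h2 (hconv.addHaar_frontier μ)
    exact hpos.ne' h3
  obtain ⟨q, hq⟩ := hint
  have hq' : q ∈ interior P' := interior_mono hsub hq
  have hx' : x ∈ P' := subset_convexHull ℝ _ (mem_insert _ _)
  have hseg := hconv'.openSegment_interior_self_subset_interior hq' hx'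
  -- a point of the segment outside `P`
  have hcont : Continuous (fun s : ℝ => x + s • (q - x)) := by fun_prop
  have hopen : IsOpen ((fun s : ℝ => x + s • (q - x)) ⁻¹' Pᶜ) :=
    hPc.isClosed.isOpen_compl.preimage hcont
  have h0 : (0 : ℝ) ∈ (fun s : ℝ => x + s • (q - x)) ⁻¹' Pᶜ := by
    simp only [mem_preimage, zero_smul, add_zero]
    exact hx
  obtain ⟨ε, hε, hball⟩ := Metric.isOpen_iff.1 hopen 0 h0
  let s : ℝ := min (ε / 2) (1 / 2)
  have hs0 : 0 < s := lt_min (by linarith) (by norm_num)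
  have hs1 : s ≤ 1 / 2 := min_le_right _ _
  have hsε : s ≤ ε / 2 := min_le_left _ _
  have hz1 : x + s • (q - x) ∉ P := by
    apply hball
    rw [Metric.mem_ball, Real.dist_eq, sub_zero, abs_of_pos hs0]
    linarith
  have hz2 : x + s • (q - x) ∈ interior P' := by
    apply hseg
    refine ⟨s, 1 - s, hs0, by linarith, by ring, ?_⟩
    module
  have hU : IsOpen (interior P' ∩ Pᶜ) := isOpen_interior.inter hPc.isClosed.isOpen_compl
  have hUpos : 0 < μ (interior P' ∩ Pᶜ) := hU.measure_pos μ ⟨_, hz2, hz1⟩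
  have hdisj : Disjoint P (interior P' ∩ Pᶜ) := by
    rw [Set.disjoint_left]
    intro y hy hy2
    exact hy2.2 hy
  have h4 : μ (P ∪ (interior P' ∩ Pᶜ)) = μ P + μ (interior P' ∩ Pᶜ) :=
    measure_union hdisj hU.measurableSet
  have h5 : P ∪ (interior P' ∩ Pᶜ) ⊆ P' := by
    intro y hy
    rcases hy with hy | hy
    · exact hsub hy
    · exact interior_subset hy.1
  calc μ P < μ P + μ (interior P' ∩ Pᶜ) :=
        ENNReal.lt_add_right hPc.measure_lt_top.ne hUpos.ne'
    _ = μ (P ∪ (interior P' ∩ Pᶜ)) := h4.symm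
    _ ≤ μ P' := measure_mono h5

lemma sphere_SE (d : ℕ) (S : Finset (EuclideanSpace ℝ (Fin d))) (hS : ∀ x ∈ S, ‖x‖ = 1) :
    SE (fun x : {x // x ∈ S} => x.1) := by
  intro i
  refine ⟨innerSL ℝ i.1, ?_⟩
  intro j hj
  have h1 : ‖i.1‖ = 1 := hS i.1 i.2
  have h2 : ‖j.1‖ = 1 := hS j.1 j.2
  rw [innerSL_apply_apply, innerSL_apply_apply, real_inner_self_eq_norm_sq, h1, one_pow]
  exact (inner_lt_one_iff_real_of_norm_eq_one h1 h2).2 fun h => hj (Subtype.ext h.symm)

/-- a point of the unit sphere in the hull of points of the sphere is one of them -/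
lemma sphere_mem (d : ℕ) (S : Finset (EuclideanSpace ℝ (Fin d))) (hS : ∀ x ∈ S, ‖x‖ = 1)
    (x : EuclideanSpace ℝ (Fin d)) (hx : ‖x‖ = 1) (hxS : x ∉ S) :
    x ∉ convexHull ℝ (S : Set (EuclideanSpace ℝ (Fin d))) := by
  intro hmem
  have h1 : convexHull ℝ (S : Set (EuclideanSpace ℝ (Fin d))) ⊆ {y | innerSL ℝ x y < 1} := by
    apply convexHull_min
    · intro y hy
      change innerSL ℝ x y < 1
      rw [innerSL_apply_apply]
      refine (inner_lt_one_iff_real_of_norm_eq_one hx (hS y hy)).2 ?_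
      rintro rfl
      exact hxS hy
    · exact convex_halfSpace_lt (innerSL ℝ x).toLinearMap.isLinear 1
  have h2 : innerSL ℝ x x < 1 := h1 hmem
  rw [innerSL_apply_apply, real_inner_self_eq_norm_sq, hx, one_pow] at h2
  exact lt_irrefl _ h2

lemma exists_new (d : ℕ) (hd : 2 ≤ d) (S : Finset (EuclideanSpace ℝ (Fin d))) :
    ∃ x, ‖x‖ = 1 ∧ x ∉ S := by
  have hrank : 1 < Module.rank ℝ (EuclideanSpace ℝ (Fin d)) := by
    rw [← Module.finrank_eq_rank, finrank_euclideanSpace_fin]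
    exact_mod_cast hd
  have h1 := isPreconnected_sphere hrank (0 : EuclideanSpace ℝ (Fin d)) 1
  have h2 : (Metric.sphere (0 : EuclideanSpace ℝ (Fin d)) 1).Nontrivial := by
    refine ⟨EuclideanSpace.single ⟨0, by omega⟩ 1, ?_, EuclideanSpace.single ⟨1, by omega⟩ 1, ?_, ?_⟩
    · simp
    · simp
    · intro h
      have := congrArg (fun v : EuclideanSpace ℝ (Fin d) => v ⟨0, by omega⟩) h
      simp at this
  have h3 := h1.infinite_of_nontrivial h2
  obtain ⟨x, hx, hxS⟩ := h3.exists_notMem_finset S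
  exact ⟨x, by simpa using hx, hxS⟩

/-- the volume of a hull and of its coordinate form -/
lemma vol_ofLp {ι : Type*} [Finite ι] (d : ℕ) (v : ι → EuclideanSpace ℝ (Fin d)) :
    volume (convexHull ℝ (range v)) = volume (convexHull ℝ (range fun l => (v l).ofLp)) := by
  have h1 : (fun l => (v l).ofLp) = (WithLp.linearEquiv 2 ℝ (Fin d → ℝ)).toLinearMap ∘ v := rfl
  rw [h1, range_comp, ← LinearMap.image_convexHull]
  have h2 : convexHull ℝ (range v) = (@WithLp.ofLp 2 (Fin d → ℝ)) ⁻¹'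
      ((WithLp.linearEquiv 2 ℝ (Fin d → ℝ)).toLinearMap '' convexHull ℝ (range v)) := by
    ext x
    constructor
    · intro hx
      exact ⟨x, hx, rfl⟩
    · rintro ⟨y, hy, hyx⟩
      have : y = x := (WithLp.linearEquiv 2 ℝ (Fin d → ℝ)).injective hyx
      rwa [← this]
  conv_lhs => rw [h2]
  apply (PiLp.volume_preserving_ofLp (Fin d)).measure_preimage
  apply IsCompact.measurableSet ?_ |>.nullMeasurableSet
  apply ((finite_range v).isCompact_convexHull (𝕜 := ℝ)).image
  exact (WithLp.linearEquiv 2 ℝ (Fin d → ℝ)).toLinearMap.continuous_of_finiteDimensional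

lemma HA_ofLp (d : ℕ) (v : Fin (d + 3) → EuclideanSpace ℝ (Fin d)) (h : HA v) :
    HA (fun l => (v l).ofLp) := by
  intro i j k hT
  obtain ⟨u, c, h1, h2, h3, h4⟩ := h i j k hT
  exact ⟨u.comp (PiLp.continuousLinearEquiv 2 ℝ (fun _ : Fin d => ℝ)).symm.toContinuousLinearMap, c,
    h1, h2, h3, h4⟩

lemma HB_ofLp (d : ℕ) (v : Fin (d + 3) → EuclideanSpace ℝ (Fin d)) (h : HB v) :
    HB (fun l => (v l).ofLp) := by
  intro f c hf hstrict
  exact h (f.comp (PiLp.continuousLinearEquiv 2 ℝ (fun _ : Fin d => ℝ)).toContinuousLinearMap) c hf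
    hstrict

/-- the bound for the volume of inscribed cyclic polytopes -/
theorem upper' (d : ℕ) (hd : Even d) (hd0 : 0 < d) (v : Fin (d + 3) → EuclideanSpace ℝ (Fin d))
    (hn : ∀ l, ‖v l‖ = 1) (hA : HA v) (hB : HB v) :
    volume (convexHull ℝ (range v)) ≤ ENNReal.ofReal (vs d *
      (Real.sqrt ((d + 3 : ℕ) * (((d + 3 : ℕ) : ℝ) / d) ^ d) / (2 * Real.sin (π / (d + 3 : ℕ))))) := by
  rw [vol_ofLp]
  apply upper d hd hd0 _ _ (HA_ofLp d v hA) (HB_ofLp d v hB)
  intro l
  have h1 := hn l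
  rw [EuclideanSpace.norm_eq, Real.sqrt_eq_one] at h1
  simpa using h1

/-- a large inscribed polytope -/
theorem large (d : ℕ) (hd : Even d) (hd4 : 4 ≤ d) : ∃ S : Finset (EuclideanSpace ℝ (Fin d)),
    S.card ≤ d + 3 ∧ (∀ x ∈ S, ‖x‖ = 1) ∧
    ENNReal.ofReal (vs d * (Real.sqrt ((d + 3 : ℕ) * (((d + 3 : ℕ) : ℝ) / d) ^ d) /
      (2 * Real.sin (π / (d + 3 : ℕ))))) <
      volume (convexHull ℝ (S : Set (EuclideanSpace ℝ (Fin d)))) := by
  classical
  obtain ⟨m, hm0, hm1, hm2⟩ := num d hd hd4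
  obtain ⟨O, hr, hc, hb⟩ := exists_O m d hm1
  let D : Dat m d := ⟨O, hr, hc, hb, hm0, hm1⟩
  have hcard : Fintype.card (Ix m) = d + 3 := by
    rw [Fintype.card_sigma]
    simp only [Fintype.card_fin]
    rw [Finset.sum_add_distrib, hm1]
    simp
  let v : Ix m → EuclideanSpace ℝ (Fin d) := fun l => WithLp.toLp 2 (qq D l)
  refine ⟨Finset.univ.image v, ?_, ?_, ?_⟩
  · rw [← hcard, ← Finset.card_univ]
    exact Finset.card_image_le
  · intro x hx
    rw [Finset.mem_image] at hx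
    obtain ⟨l, _, rfl⟩ := hx
    rw [EuclideanSpace.norm_eq, Real.sqrt_eq_one]
    simpa [v] using qq_norm D l
  · rw [Finset.coe_image, Finset.coe_univ, image_univ, vol_ofLp]
    refine lt_of_lt_of_le ?_ (lower D)
    have h1 : 0 < Real.sqrt (∏ a, (((m a : ℝ) + 1) * (((m a : ℝ) + 1) / m a) ^ m a)) := by
      apply Real.sqrt_pos.2
      apply Finset.prod_pos
      intro a _
      have : (0 : ℝ) < m a := by exact_mod_cast hm0 a
      positivity
    rw [ENNReal.ofReal_lt_ofReal_iff (mul_pos (vs_pos d) h1)]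
    exact mul_lt_mul_of_pos_left hm2 (vs_pos d)

lemma vertex_bij' {E E' : Type*} [NormedAddCommGroup E] [NormedSpace ℝ E] [NormedAddCommGroup E']
    [NormedSpace ℝ E'] {ι κ : Type*} [Fintype ι] [Fintype κ] (P : Set E) (Q : Set E')
    (v : ι → E) (hv : SE v) (w : κ → E') (hw : SE w) (hP : P = convexHull ℝ (range v))
    (hQ : Q = convexHull ℝ (range w)) (e : Faces P ≃o Faces Q) :
    ∃ φ : ι ≃ κ, ∀ (F : Faces P) (i : ι), v i ∈ F.1 ↔ w (φ i) ∈ (e F).1 := by
  subst hP hQ
  exact vertex_bij v hv w hw e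

lemma HA_HB_of' {E : Type*} [NormedAddCommGroup E] [NormedSpace ℝ E] {d : ℕ} (hd : Even d)
    (hd0 : 0 < d) (t : Fin (d + 3) → ℝ) (ht : StrictMono t) (v : Fin (d + 3) → E)
    (P : Set E) (Q : Set (EuclideanSpace ℝ (Fin d))) (hP : P = convexHull ℝ (range v))
    (hQ : Q = convexHull ℝ (range fun l => mom d (t l))) (e : Faces P ≃o Faces Q)
    (h : ∀ F l, v l ∈ F.1 ↔ mom d (t l) ∈ (e F).1) : HA v ∧ HB v := by
  subst hP hQ
  exact ⟨HA_of hd hd0 t ht v e h, HB_of hd hd0 t ht v e h⟩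

/-- the main statement -/
theorem main (d : ℕ) (hd : Even d) (hd4 : 4 ≤ d) (S : Finset (EuclideanSpace ℝ (Fin d)))
    (hcard : S.card ≤ d + 3) (hS : ∀ x ∈ S, ‖x‖ = 1)
    (hmax : ∀ S' : Finset (EuclideanSpace ℝ (Fin d)), S'.card ≤ d + 3 → (∀ x ∈ S', ‖x‖ = 1) →
      volume (convexHull ℝ (S' : Set (EuclideanSpace ℝ (Fin d)))) ≤
        volume (convexHull ℝ (S : Set (EuclideanSpace ℝ (Fin d)))))
    (T : Finset ℝ)
    (e : Faces (convexHull ℝ (S : Set (EuclideanSpace ℝ (Fin d)))) ≃o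
      Faces (convexHull ℝ (mom d '' (T : Set ℝ)))) : False := by
  classical
  obtain ⟨Sq, hq1, hq2, hq3⟩ := large d hd hd4
  have hlt := lt_of_lt_of_le hq3 (hmax Sq hq1 hq2)
  have hSc : S.card = d + 3 := by
    by_contra hne
    obtain ⟨x, hx1, hx2⟩ := exists_new d (by omega) S
    have h1 := vol_insert volume (S : Set (EuclideanSpace ℝ (Fin d))) S.finite_toSet
      (lt_of_le_of_lt zero_le hlt) x (sphere_mem d S hS x hx1 hx2)
    have h2 := hmax (insert x S) (by rw [Finset.card_insert_of_notMem hx2]; omega) (by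
      intro y hy
      rw [Finset.mem_insert] at hy
      rcases hy with rfl | hy
      · exact hx1
      · exact hS y hy)
    rw [Finset.coe_insert] at h2
    exact absurd h1 (not_lt.2 h2)
  obtain ⟨φ, hφ⟩ := vertex_bij' _ _ (fun x : {x // x ∈ S} => x.1) (sphere_SE d S hS)
    (fun x : {x // x ∈ T} => mom d x.1) (mom_SE d (by omega) T)
    (by congr 1; exact Subtype.range_coe.symm) (by rw [image_eq_range]; rfl) e
  have hTc : T.card = d + 3 := by
    rw [← hSc]
    have := Fintype.card_congr φ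
    simpa using this.symm
  let ψ : Fin (d + 3) ≃ {x // x ∈ T} := (T.orderIsoOfFin hTc).toEquiv
  let v : Fin (d + 3) → EuclideanSpace ℝ (Fin d) := fun l => (φ.symm (ψ l)).1
  let t : Fin (d + 3) → ℝ := fun l => (ψ l).1
  have ht : StrictMono t := by
    intro i j hij
    exact (T.orderIsoOfFin hTc).strictMono hij
  have hrv : range v = (S : Set (EuclideanSpace ℝ (Fin d))) := by
    ext x
    constructor
    · rintro ⟨l, rfl⟩
      exact (φ.symm (ψ l)).2
    · intro hx
      refine ⟨ψ.symm (φ ⟨x, hx⟩), ?_⟩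
      simp [v]
  have hrt : range (fun l => mom d (t l)) = mom d '' (T : Set ℝ) := by
    ext y
    constructor
    · rintro ⟨l, rfl⟩
      exact ⟨t l, (ψ l).2, rfl⟩
    · rintro ⟨s, hs, rfl⟩
      refine ⟨ψ.symm ⟨s, hs⟩, ?_⟩
      simp [t]
  obtain ⟨hA, hB⟩ := HA_HB_of' hd (by omega) t ht v _ _ (by rw [hrv]) (by rw [hrt]) e (by
    intro F l
    have := hφ F (φ.symm (ψ l))
    rw [Equiv.apply_symm_apply] at this
    exact this)
  have h1 := upper' d hd (by omega) v (fun l => hS _ (φ.symm (ψ l)).2) hA hB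
  rw [hrv] at h1
  exact absurd hlt (not_lt.2 h1)

end Pool.Agent.H15CY
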